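import Pool.Agent.Helper7.PTX.Cnt

set_option autoImplicit false

/-!
# PTX / Asy: the upper bounds of `Cnt` for the windows `(N, N + N^(1/2-δ))`

`h = hd δ N`, `m ≤ hd (2 δ) N`: `h/m ≥ N^δ/2` for large `N`, so `log (h/m + 1) ≥ (δ/2) log N` and
`h/m + 1 ≤ 2 h/m`.
-/

open Filter Finset Real Pool.Agent.PTH

namespace Pool.Agent.Helper7.PTX

/-- basic inequalities between `h = hd δ N`, `hd (2 δ) N` and powers of `N` -/
theorem hd_facts (δ : ℝ) (hδ : 0 < δ) (hδ2 : δ ≤ 1 / 2000) : ∀ᶠ N : ℕ in atTop,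
    3 ≤ N ∧ 2 * hd δ N ≤ N ∧ 1 ≤ hd (2 * δ) N ∧ hd (2 * δ) N ≤ hd δ N ∧
    (hd δ N : ℝ) ≤ (N : ℝ) ^ (1 / 2 - δ) ∧ (N : ℝ) ^ (1 / 2 - δ) ≤ 2 * (hd δ N : ℝ) ∧
    ∀ m : ℕ, 1 ≤ m → m ≤ hd (2 * δ) N → (N : ℝ) ^ δ / 2 ≤ (hd δ N : ℝ) / m := by
  have e1 : ∀ᶠ x : ℝ in atTop, 4 ≤ x ^ (1 / 2 - 2 * δ) ∧ 1 ≤ x ^ δ ∧ 4 ≤ x ^ (1 / 2 : ℝ) := by
    filter_upwards [(tendsto_rpow_atTop (show (0 : ℝ) < 1 / 2 - 2 * δ by linarith)).eventually_ge_atTop
      (4 : ℝ), (tendsto_rpow_atTop hδ).eventually_ge_atTop (1 : ℝ),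
      (tendsto_rpow_atTop (show (0 : ℝ) < 1 / 2 by norm_num)).eventually_ge_atTop (4 : ℝ)]
      with x h1 h2 h3
    exact ⟨h1, h2, h3⟩
  filter_upwards [tendsto_natCast_atTop_atTop.eventually e1, eventually_ge_atTop 3] with N hN hN3
  obtain ⟨h1, h2, h3⟩ := hN
  have hN0 : (0 : ℝ) < N := by exact_mod_cast (by omega : 0 < N)
  have hN1 : (1 : ℝ) ≤ N := by exact_mod_cast (by omega : 1 ≤ N)
  have hX : (N : ℝ) ^ (1 / 2 - δ) = (N : ℝ) ^ (1 / 2 - 2 * δ) * (N : ℝ) ^ δ := by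
    rw [← rpow_add hN0]; ring_nf
  have hX4 : 4 ≤ (N : ℝ) ^ (1 / 2 - δ) := by
    rw [hX]
    nlinarith
  have hle : (hd δ N : ℝ) ≤ (N : ℝ) ^ (1 / 2 - δ) := by
    unfold hd
    exact Nat.floor_le (rpow_nonneg hN0.le _)
  have hge : (N : ℝ) ^ (1 / 2 - δ) - 1 ≤ (hd δ N : ℝ) := by
    unfold hd
    exact (Nat.sub_one_lt_floor _).le
  have hle2 : (hd (2 * δ) N : ℝ) ≤ (N : ℝ) ^ (1 / 2 - 2 * δ) := by
    unfold hd
    exact Nat.floor_le (rpow_nonneg hN0.le _)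
  have hge2 : (N : ℝ) ^ (1 / 2 - 2 * δ) - 1 ≤ (hd (2 * δ) N : ℝ) := by
    unfold hd
    exact (Nat.sub_one_lt_floor _).le
  refine ⟨hN3, ?_, ?_, ?_, hle, by linarith, ?_⟩
  · have h4 : (N : ℝ) ^ (1 / 2 - δ) ≤ (N : ℝ) ^ (1 / 2 : ℝ) :=
      rpow_le_rpow_of_exponent_le hN1 (by linarith)
    have h5 : (N : ℝ) ^ (1 / 2 : ℝ) * (N : ℝ) ^ (1 / 2 : ℝ) = N := by
      rw [← rpow_add hN0]; norm_num
    have h6 : (2 : ℝ) * (hd δ N : ℝ) ≤ N := by nlinarith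
    exact_mod_cast h6
  · have h4 : (1 : ℝ) ≤ (hd (2 * δ) N : ℝ) := by linarith
    exact_mod_cast h4
  · unfold hd
    exact Nat.floor_le_floor (rpow_le_rpow_of_exponent_le hN1 (by linarith))
  · intro m hm hmle
    have hm0 : (0 : ℝ) < m := by exact_mod_cast (by omega : 0 < m)
    have hm1 : (m : ℝ) ≤ (N : ℝ) ^ (1 / 2 - 2 * δ) := by
      have : (m : ℝ) ≤ (hd (2 * δ) N : ℝ) := by exact_mod_cast hmle
      linarith
    rw [div_le_div_iff₀ (by norm_num) hm0]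
    have h4 : (N : ℝ) ^ δ * m ≤ (N : ℝ) ^ (1 / 2 - δ) := by
      rw [hX, mul_comm]
      exact mul_le_mul_of_nonneg_right hm1 (by linarith)
    linarith

theorem cls_asy : ∃ C : ℝ, 0 < C ∧ ∀ δ : ℝ, 0 < δ → δ ≤ 1 / 2000 → ∀ᶠ N : ℕ in atTop,
    ∀ m : ℕ, 1 ≤ m → m ≤ hd (2 * δ) N → ∀ r a : ℕ, 1 ≤ r → Nat.Coprime m r →
    (r : ℝ) ^ 2 ≤ (N : ℝ) ^ δ / 2 →
    (((QQ N (hd δ N) m).filter (fun n => n ≡ a [MOD r])).card : ℝ) ≤
      C / δ / (Nat.totient r : ℝ) * ((hd δ N : ℝ) / (m * log N)) := by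
  obtain ⟨C, hC, hcls⟩ := cls_le
  refine ⟨4 * C, by positivity, fun δ hδ hδ2 => ?_⟩
  have e1 : ∀ᶠ x : ℝ in atTop, 4 ≤ x ^ δ ∧ 2 * log 2 ≤ δ * log x := by
    filter_upwards [(tendsto_rpow_atTop hδ).eventually_ge_atTop (4 : ℝ),
      (tendsto_log_atTop.const_mul_atTop hδ).eventually_ge_atTop (2 * log 2)] with x h1 h2
    exact ⟨h1, h2⟩
  filter_upwards [hd_facts δ hδ hδ2, tendsto_natCast_atTop_atTop.eventually e1] with N hf hN
  obtain ⟨hN3, h2h, hD1, hDh, hhle, hhge, hm⟩ := hf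
  obtain ⟨h4δ, hlog2⟩ := hN
  intro m hm1 hmle r a hr hcop hr2
  have hN0 : (0 : ℝ) < N := by exact_mod_cast (by omega : 0 < N)
  have hlog : 0 < log N := log_pos (by exact_mod_cast (by omega : 1 < N))
  have hmr := hm m hm1 hmle
  set h : ℕ := hd δ N with hh
  have hm0 : (0 : ℝ) < m := by exact_mod_cast (by omega : 0 < m)
  have hmh : m ≤ h := hmle.trans hDh
  set w : ℕ := h / m + 1 with hw
  have hw1 : (h : ℝ) / m < w := by
    rw [div_lt_iff₀ hm0, hw]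
    have h1 : h < m * (h / m) + m := by
      have := Nat.div_add_mod h m
      have := Nat.mod_lt h (show 0 < m by omega)
      omega
    have h2 : h < (h / m + 1) * m := by
      calc h < m * (h / m) + m := h1
        _ = (h / m + 1) * m := by ring
    exact_mod_cast h2
  have hw2 : (w : ℝ) ≤ 2 * ((h : ℝ) / m) := by
    rw [hw]
    push_cast
    have h1 : ((h / m : ℕ) : ℝ) ≤ (h : ℝ) / m := Nat.cast_div_le
    linarith
  have hr2' : r ^ 2 ≤ h / m + 1 := by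
    have h1 : ((r ^ 2 : ℕ) : ℝ) < (w : ℝ) := by
      push_cast
      linarith
    have h2 : r ^ 2 < w := by exact_mod_cast h1
    omega
  have hmain := hcls N h m r a hm1 hr hcop hmh h2h hr2'
  rw [← hw] at hmain
  have hφ : (0 : ℝ) < Nat.totient r := by exact_mod_cast Nat.totient_pos.2 (by omega)
  have hlogw : δ / 2 * log N ≤ log w := by
    have h1 : log ((N : ℝ) ^ δ / 2) ≤ log w :=
      log_le_log (by positivity) (by linarith)
    rw [log_div (by positivity) (by norm_num), log_rpow hN0] at h1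
    linarith
  have hlogw0 : 0 < log w := lt_of_lt_of_le (by positivity) hlogw
  refine hmain.trans ?_
  have hh0 : 0 ≤ (h : ℝ) / m := by positivity
  calc C * (w : ℝ) / ((Nat.totient r : ℝ) * log w)
      ≤ C * (2 * ((h : ℝ) / m)) / ((Nat.totient r : ℝ) * (δ / 2 * log N)) := by
        apply div_le_div₀ (by positivity)
        · exact mul_le_mul_of_nonneg_left hw2 hC.le
        · positivity
        · exact mul_le_mul_of_nonneg_left hlogw hφ.le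
    _ = 4 * C / δ / (Nat.totient r : ℝ) * ((h : ℝ) / (m * log N)) := by
        field_simp
        ring

end Pool.Agent.Helper7.PTX
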