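import Pool.Agent.Helper76.OB.LSV
import Pool.Agent.Helper76.OB.LSA

set_option autoImplicit false

/-!
# PTX / BTI: Brun-Titchmarsh for primes in a residue class in an arbitrary interval

Adapted from `Pool/Agent/Helper76/OB/BTG.lean` (interval `[1, x]` there, `(u, u + w]` here).
Primes `ℓ ∈ (u, u + w]`, `ℓ > w`, `ℓ ≡ a (mod q)`, `q² ≤ w`: `ℓ = (a mod q) + q k`, `k` in an interval of length
`w/q + 1`, outside one class modulo each prime `p ≤ X = √(w/q)`, `p ∤ q`.
-/

open Filter Classical

namespace Pool.Agent.Helper7.PTX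

open Pool.Agent.Helper76.OB

/-- one class away from the primes dividing `q` -/
private noncomputable def omq (q p : ℕ) : ℕ := if p ∣ q then 0 else 1

private lemma LS_ge (q X : ℕ) (hq : 1 ≤ q) :
    ((Nat.totient q : ℝ) / q) * (Real.log (X + 1) / 2) ≤ LS (omq q) X := by
  refine (sum_coprime q X hq).trans ?_
  unfold LS
  have h1 : (Finset.Icc 1 X).filter (fun u => Squarefree u ∧ u.Coprime q) ⊆
      (Finset.Icc 1 X).filter Squarefree := by
    intro u hu
    rw [Finset.mem_filter] at hu ⊢
    exact ⟨hu.1, hu.2.1⟩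
  have h0 : ∀ (u p : ℕ), p ∈ u.primeFactors → (0 : ℝ) ≤ (omq q p : ℝ) / ((p : ℝ) - omq q p) := by
    intro u p hp
    have hp2 : (2 : ℝ) ≤ p := by exact_mod_cast (Nat.prime_of_mem_primeFactors hp).two_le
    unfold omq
    split_ifs
    · simp
    · have : (0 : ℝ) < (p : ℝ) - (1 : ℕ) := by
        push_cast
        linarith
      positivity
  calc ∑ u ∈ (Finset.Icc 1 X).filter (fun u => Squarefree u ∧ u.Coprime q),
        (1 : ℝ) / (Nat.totient u : ℝ)
      = ∑ u ∈ (Finset.Icc 1 X).filter (fun u => Squarefree u ∧ u.Coprime q),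
        ∏ p ∈ u.primeFactors, (omq q p : ℝ) / ((p : ℝ) - omq q p) := by
        refine Finset.sum_congr rfl fun u hu => ?_
        rw [Finset.mem_filter, Finset.mem_Icc] at hu
        obtain ⟨⟨hu1, -⟩, hsq, hcop⟩ := hu
        have hprod : ∏ p ∈ u.primeFactors, p = u := Nat.prod_primeFactors_of_squarefree hsq
        have htot : (Nat.totient u : ℝ) = ∏ p ∈ u.primeFactors, ((p : ℝ) - 1) := by
          have h2 := Nat.totient_mul_prod_primeFactors u
          rw [hprod] at h2
          have h3 : Nat.totient u = ∏ p ∈ u.primeFactors, (p - 1) := by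
            have h4 : Nat.totient u * u = (∏ p ∈ u.primeFactors, (p - 1)) * u := by
              rw [h2, mul_comm]
            exact Nat.eq_of_mul_eq_mul_right (by omega) h4
          rw [h3]
          push_cast
          refine Finset.prod_congr rfl fun p hp => ?_
          rw [Nat.cast_sub (Nat.prime_of_mem_primeFactors hp).one_le]
          simp
        rw [htot, one_div, ← Finset.prod_inv_distrib]
        refine Finset.prod_congr rfl fun p hp => ?_
        have hpq : ¬ p ∣ q := by
          intro hpq
          have hpp := Nat.prime_of_mem_primeFactors hp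
          have h5 : p ∣ Nat.gcd u q := Nat.dvd_gcd (Nat.dvd_of_mem_primeFactors hp) hpq
          rw [hcop] at h5
          exact hpp.one_lt.ne' (Nat.dvd_one.mp h5)
        unfold omq
        rw [if_neg hpq]
        push_cast
        rw [one_div]
    _ ≤ _ := Finset.sum_le_sum_of_subset_of_nonneg h1 fun u _ _ =>
        Finset.prod_nonneg fun p hp => h0 u p hp

theorem bt_int : ∃ C : ℝ, 0 < C ∧ ∀ u w q a : ℕ, 2 ≤ w → 1 ≤ q → q ^ 2 ≤ w →
    (((Finset.Ioc u (u + w)).filter
      (fun l : ℕ => l.Prime ∧ w < l ∧ l ≡ a [MOD q])).card : ℝ) ≤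
      C * w / ((Nat.totient q : ℝ) * Real.log w) := by
  refine ⟨344, by norm_num, ?_⟩
  intro u w q a hw hq hqw
  set S := (Finset.Ioc u (u + w)).filter (fun l : ℕ => l.Prime ∧ w < l ∧ l ≡ a [MOD q]) with hS
  set N := w / q with hN
  set X := Nat.sqrt N with hX
  have hw0 : (0 : ℝ) < w := by exact_mod_cast (by omega : 0 < w)
  have hq0 : (0 : ℝ) < q := by exact_mod_cast (by omega : 0 < q)
  have hφ0 : (0 : ℝ) < Nat.totient q := by exact_mod_cast Nat.totient_pos.mpr (by omega)
  have hlogw : 0 < Real.log w := Real.log_pos (by exact_mod_cast (by omega : 1 < w))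
  have hqw' : q ≤ w := by
    have : q * 1 ≤ q * q := Nat.mul_le_mul_left q hq
    rw [sq] at hqw
    omega
  have hy1 : (1 : ℝ) ≤ (w : ℝ) / q := by
    rw [le_div_iff₀ hq0, one_mul]
    exact_mod_cast hqw'
  have hNle : (N : ℝ) ≤ (w : ℝ) / q := Nat.cast_div_le
  have hNlt : (w : ℝ) / q < N + 1 := by
    rw [div_lt_iff₀ hq0]
    have : w < (N + 1) * q := by
      have h1 := Nat.div_add_mod w q
      have h2 := Nat.mod_lt w hq
      calc w = q * (w / q) + w % q := h1.symm
        _ < q * (w / q) + q := by omega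
        _ = (N + 1) * q := by rw [hN]; ring
    exact_mod_cast this
  have hlogy : Real.log w / 2 ≤ Real.log ((w : ℝ) / q) := by
    rw [Real.log_div hw0.ne' hq0.ne']
    have h1 : (q : ℝ) ^ 2 ≤ (w : ℝ) := by exact_mod_cast hqw
    have h2 := Real.log_le_log (by positivity) h1
    rw [Real.log_pow] at h2
    push_cast at h2
    linarith
  have hX1 : (w : ℝ) / q ≤ ((X : ℝ) + 1) ^ 2 := by
    have h1 : N < (X + 1) * (X + 1) := Nat.lt_succ_sqrt N
    have h2 : (N : ℝ) + 1 ≤ ((X : ℝ) + 1) * ((X : ℝ) + 1) := by exact_mod_cast h1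
    nlinarith
  have hlogX : Real.log w / 4 ≤ Real.log ((X : ℝ) + 1) := by
    have h1 := Real.log_le_log (by positivity) hX1
    rw [Real.log_pow] at h1
    push_cast at h1
    linarith
  have hXsq : (X : ℝ) ^ 2 ≤ N := by
    have h1 : X * X ≤ N := Nat.sqrt_le N
    rw [sq]
    exact_mod_cast h1
  have hXw : X ≤ w := (Nat.sqrt_le_self N).trans (Nat.div_le_self w q)
  have hmodS : ∀ l ∈ S, l = a % q + q * (l / q) ∧ l.Prime ∧ u < l ∧ l ≤ u + w ∧ X < l := by
    intro l hl
    rw [hS, Finset.mem_filter, Finset.mem_Ioc] at hl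
    obtain ⟨⟨h1, h1'⟩, h2, h3, h4⟩ := hl
    refine ⟨?_, h2, h1, h1', by omega⟩
    have h5 : l % q = a % q := h4
    rw [← h5]
    exact (Nat.mod_add_div l q).symm
  set A := S.image (fun l => l / q) with hA
  have hAcard : A.card = S.card := by
    refine Finset.card_image_of_injOn ?_
    intro l hl m hm hlm
    have h1 := (hmodS l hl).1
    have h2 := (hmodS m hm).1
    have h3 : l / q = m / q := hlm
    rw [h1, h2, h3]
  have hAsub : A ⊆ Finset.Icc (u / q) (u / q + (N + 1)) := by
    intro k hk
    rw [hA, Finset.mem_image] at hk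
    obtain ⟨l, hl, rfl⟩ := hk
    obtain ⟨-, -, h1, h2, -⟩ := hmodS l hl
    rw [Finset.mem_Icc]
    refine ⟨Nat.div_le_div_right h1.le, ?_⟩
    have h3 : l / q ≤ (u + w) / q := Nat.div_le_div_right h2
    have h4 : (u + w) / q ≤ u / q + w / q + 1 := by
      rw [Nat.add_div hq]
      split_ifs <;> omega
    omega
  have hls := arith_large_sieve X (u / q) (N + 1) A hAsub (omq q) ?_ ?_
  · have hLS := LS_ge q X hq
    have hA0 : (0 : ℝ) ≤ (A.card : ℝ) := Nat.cast_nonneg _
    push_cast at hls
    have h1 : (A.card : ℝ) * (((Nat.totient q : ℝ) / q) * (Real.log (X + 1) / 2)) ≤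
        43 * ((w : ℝ) / q) := by
      have h2 := mul_le_mul_of_nonneg_left hLS hA0
      linarith
    have h2 : (A.card : ℝ) * (((Nat.totient q : ℝ) / q) * (Real.log w / 8)) ≤
        43 * ((w : ℝ) / q) := by
      refine le_trans ?_ h1
      refine mul_le_mul_of_nonneg_left ?_ hA0
      refine mul_le_mul_of_nonneg_left ?_ (by positivity)
      linarith
    rw [← hAcard, le_div_iff₀ (by positivity)]
    have h4 := mul_le_mul_of_nonneg_right h2 (show (0 : ℝ) ≤ 8 * q by positivity)
    have h5 : (A.card : ℝ) * (((Nat.totient q : ℝ) / q) * (Real.log w / 8)) * (8 * q) =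
        (A.card : ℝ) * ((Nat.totient q : ℝ) * Real.log w) := by
      field_simp
    have h6 : 43 * ((w : ℝ) / q) * (8 * q) = 344 * w := by
      field_simp
      ring
    linarith
  · intro p hp _
    unfold omq
    split_ifs
    · exact hp.pos
    · exact hp.one_lt
  · intro p hp hpX
    have hrange : A.image (fun n => n % p) ⊆ Finset.range p := by
      intro k hk
      rw [Finset.mem_image] at hk
      obtain ⟨n, -, rfl⟩ := hk
      exact Finset.mem_range.mpr (Nat.mod_lt _ hp.pos)
    unfold omq
    split_ifs with hpq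
    · calc (A.image (fun n => n % p)).card + 0 ≤ (Finset.range p).card :=
            Finset.card_le_card hrange
        _ = p := Finset.card_range p
    · have hfact : Fact p.Prime := ⟨hp⟩
      have hqp : (q : ZMod p) ≠ 0 := by
        intro h
        exact hpq ((ZMod.natCast_eq_zero_iff q p).mp h)
      set k0 : ℕ := (-((a % q : ℕ) : ZMod p) / (q : ZMod p)).val with hk0
      have hk0p : k0 < p := ZMod.val_lt _
      have hmiss : k0 ∉ A.image (fun n => n % p) := by
        intro hk
        rw [Finset.mem_image] at hk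
        obtain ⟨n, hn, hnk⟩ := hk
        rw [hA, Finset.mem_image] at hn
        obtain ⟨l, hl, hln⟩ := hn
        obtain ⟨h1, h2, -, -, h4⟩ := hmodS l hl
        have h5 : ((n : ℕ) : ZMod p) = -((a % q : ℕ) : ZMod p) / (q : ZMod p) := by
          rw [← ZMod.natCast_mod n p, hnk, hk0, ZMod.natCast_zmod_val]
        have h6 : ((l : ℕ) : ZMod p) = 0 := by
          rw [h1, hln]
          push_cast
          rw [h5]
          field_simp
          ring
        have h7 : p ∣ l := (ZMod.natCast_eq_zero_iff l p).mp h6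
        have h8 : p = l := (Nat.prime_dvd_prime_iff_eq hp h2).mp h7
        omega
      have h9 : A.image (fun n => n % p) ⊆ (Finset.range p).erase k0 := by
        intro k hk
        rw [Finset.mem_erase]
        refine ⟨?_, hrange hk⟩
        rintro rfl
        exact hmiss hk
      have h10 := Finset.card_le_card h9
      rw [Finset.card_erase_of_mem (Finset.mem_range.mpr hk0p), Finset.card_range] at h10
      have := hp.pos
      omega

end Pool.Agent.Helper7.PTX
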