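import Pool.Agent.Helper7.PTX.BTI
import Pool.Agent.PTH.Def

set_option autoImplicit false

/-!
# PTX / Cnt: upper bounds for the number of products `m l`, `l` prime, in a window and a residue class

`QQ N h m` = the integers of the window `JH N h` of the form `m l`, `l > m` prime (`m = 1`: the primes).
`cls_le`: at most `C (h/m + 1)/(φ(r) log (h/m + 1))` of them are `≡ a (mod r)`, `(m, r) = 1`, `r² ≤ h/m + 1`
(from `bt_int`, `l = n/m`).
`triv_le`: at most `h/(m r) + 1` (all multiples of `m` in the window and the class).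
-/

open Filter Finset

namespace Pool.Agent.Helper7.PTX

open scoped Classical in
/-- the elements of the window of the form `m l`, `l > m` prime -/
noncomputable def QQ (N h m : ℕ) : Finset ℕ :=
  (PSK.JH N h).filter (fun n => ∃ l : ℕ, l.Prime ∧ m < l ∧ n = m * l)

lemma mem_QQ {N h m n : ℕ} : n ∈ QQ N h m ↔
    n ∈ PSK.JH N h ∧ ∃ l : ℕ, l.Prime ∧ m < l ∧ n = m * l := by
  classical
  simp [QQ]

theorem cls_le : ∃ C : ℝ, 0 < C ∧ ∀ N h m r a : ℕ, 1 ≤ m → 1 ≤ r → Nat.Coprime m r →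
    m ≤ h → 2 * h ≤ N → r ^ 2 ≤ h / m + 1 →
    (((QQ N h m).filter (fun n => n ≡ a [MOD r])).card : ℝ) ≤
      C * ((h / m + 1 : ℕ) : ℝ) / ((Nat.totient r : ℝ) * Real.log ((h / m + 1 : ℕ) : ℝ)) := by
  classical
  obtain ⟨C, hC, hbt⟩ := bt_int
  refine ⟨C, hC, ?_⟩
  intro N h m r a hm hr hcop hmh hhN hrw
  have hw : 2 ≤ h / m + 1 := by
    have : 1 ≤ h / m := (Nat.one_le_div_iff (by omega)).2 hmh
    omega
  -- an inverse of `m`
  obtain ⟨b, hb⟩ : ∃ b : ℕ, m * b ≡ a [MOD r] := by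
    obtain ⟨c, hc⟩ := Nat.exists_mul_mod_eq_of_coprime a hcop (by omega)
    exact ⟨c, hc.2⟩
  refine le_trans ?_ (hbt (N / m) (h / m + 1) r b hw hr hrw)
  have hinj : Set.InjOn (fun n => n / m) ((QQ N h m).filter (fun n => n ≡ a [MOD r]) : Set ℕ) := by
    intro n hn n' hn' hnn
    rw [Finset.mem_coe, Finset.mem_filter, mem_QQ] at hn hn'
    obtain ⟨⟨-, l, -, -, rfl⟩, -⟩ := hn
    obtain ⟨⟨-, l', -, -, rfl⟩, -⟩ := hn'
    simp only [Nat.mul_div_cancel_left _ (show 0 < m by omega)] at hnn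
    rw [hnn]
  have hcard := Finset.card_image_of_injOn hinj
  have hsub : ((QQ N h m).filter (fun n => n ≡ a [MOD r])).image (fun n => n / m) ⊆
      (Finset.Ioc (N / m) (N / m + (h / m + 1))).filter
        (fun l : ℕ => l.Prime ∧ h / m + 1 < l ∧ l ≡ b [MOD r]) := by
    intro k hk
    rw [Finset.mem_image] at hk
    obtain ⟨n, hn, rfl⟩ := hk
    rw [Finset.mem_filter, mem_QQ, PSK.mem_JH] at hn
    obtain ⟨⟨⟨h1, h2⟩, l, hl, hml, rfl⟩, h4⟩ := hn
    rw [Nat.mul_div_cancel_left _ (show 0 < m by omega), Finset.mem_filter, Finset.mem_Ioc]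
    have h5 : N / m < l := Nat.div_lt_of_lt_mul h1
    have h6 : l ≤ (N + h) / m := (Nat.le_div_iff_mul_le (by omega)).2 (by rw [mul_comm]; omega)
    have h7 : (N + h) / m ≤ N / m + h / m + 1 := by
      rw [Nat.add_div (by omega : 0 < m)]
      split_ifs <;> omega
    have h9 : 1 ≤ h / m := (Nat.one_le_div_iff (by omega)).2 hmh
    have h8 : 2 * (h / m) ≤ N / m := by
      rw [Nat.le_div_iff_mul_le (by omega)]
      have := Nat.div_mul_le_self h m
      calc 2 * (h / m) * m = 2 * (h / m * m) := by ring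
        _ ≤ 2 * h := by omega
        _ ≤ N := hhN
    refine ⟨⟨h5, by omega⟩, hl, by omega, ?_⟩
    · exact Nat.ModEq.cancel_left_of_coprime (by rw [Nat.gcd_comm]; exact hcop) (h4.trans hb.symm)
  calc ((((QQ N h m).filter (fun n => n ≡ a [MOD r])).card : ℕ) : ℝ)
      = (((((QQ N h m).filter (fun n => n ≡ a [MOD r])).image (fun n => n / m)).card : ℕ) : ℝ) := by
        rw [hcard]
    _ ≤ _ := by exact_mod_cast Finset.card_le_card hsub

theorem triv_le (N h m r a : ℕ) (hm : 1 ≤ m) (hr : 1 ≤ r) (hcop : Nat.Coprime m r) (hh : 1 ≤ h) :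
    (((QQ N h m).filter (fun n => n ≡ a [MOD r])).card : ℝ) ≤ (h : ℝ) / (m * r) + 1 := by
  classical
  have hm0 : (0 : ℝ) < m := by exact_mod_cast (by omega : 0 < m)
  have hr0 : (0 : ℝ) < r := by exact_mod_cast (by omega : 0 < r)
  rcases ((QQ N h m).filter (fun n => n ≡ a [MOD r])).eq_empty_or_nonempty with h0 | ⟨n0, hn0⟩
  · rw [h0]
    simp only [Finset.card_empty, Nat.cast_zero]
    positivity
  have hkey : ∀ n ∈ (QQ N h m).filter (fun n => n ≡ a [MOD r]),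
      N < n ∧ n < N + h ∧ m ∣ n ∧ n ≡ a [MOD r] := by
    intro n hn
    rw [Finset.mem_filter, mem_QQ, PSK.mem_JH] at hn
    obtain ⟨⟨⟨h1, h2⟩, l, -, -, rfl⟩, h3⟩ := hn
    exact ⟨h1, h2, dvd_mul_right _ _, h3⟩
  obtain ⟨k1, k2, k3, k4⟩ := hkey n0 hn0
  have hsub : (QQ N h m).filter (fun n => n ≡ a [MOD r]) ⊆
      (Finset.Ioc N (N + (h - 1))).filter (fun n => n ≡ n0 [MOD (m * r)]) := by
    intro n hn
    obtain ⟨h1, h2, h3, h4⟩ := hkey n hn
    rw [Finset.mem_filter, Finset.mem_Ioc]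
    refine ⟨⟨h1, by omega⟩, ?_⟩
    rw [← Nat.modEq_and_modEq_iff_modEq_mul hcop]
    exact ⟨((Nat.modEq_zero_iff_dvd.2 h3).trans (Nat.modEq_zero_iff_dvd.2 k3).symm),
      h4.trans k4.symm⟩
  have h5 := Finset.card_le_card hsub
  have h6 : (((Finset.Ioc N (N + (h - 1))).filter (fun n => n ≡ n0 [MOD (m * r)])).card : ℝ) ≤
      (h : ℝ) / (m * r) + 1 := by
    have hmr : (0 : ℚ) < ((m * r : ℕ) : ℚ) := by
      have : 0 < m * r := Nat.mul_pos (by omega) (by omega)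
      exact_mod_cast this
    have h7 := Nat.Ioc_filter_modEq_card N (N + (h - 1)) (r := m * r)
      (Nat.mul_pos (by omega) (by omega)) n0
    set c : ℕ := ((Finset.Ioc N (N + (h - 1))).filter (fun n => n ≡ n0 [MOD (m * r)])).card with hc
    set M : ℚ := ((m * r : ℕ) : ℚ) with hM
    have h8 : ((⌊(((N + (h - 1) : ℕ) : ℚ) - n0) / M⌋ : ℤ) : ℚ) ≤
        (((N + (h - 1) : ℕ) : ℚ) - n0) / M := Int.floor_le _
    have h9 : ((N : ℚ) - n0) / M < ((⌊((N : ℚ) - n0) / M⌋ : ℤ) : ℚ) + 1 := Int.lt_floor_add_one _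
    have h10 : (((N + (h - 1) : ℕ) : ℚ) - n0) / M = ((N : ℚ) - n0) / M + ((h : ℚ) - 1) / M := by
      rw [← add_div]
      congr 1
      push_cast [Nat.cast_sub hh]
      ring
    have h11 : ((h : ℚ) - 1) / M ≤ h / M := div_le_div_of_nonneg_right (by linarith) hmr.le
    have h12 : (c : ℚ) ≤ (h : ℚ) / M + 1 := by
      have h13 : ((c : ℤ) : ℚ) = ((max (⌊(((N + (h - 1) : ℕ) : ℚ) - n0) / M⌋ -
          ⌊((N : ℚ) - n0) / M⌋) 0 : ℤ) : ℚ) := by exact_mod_cast congrArg (fun z : ℤ => (z : ℚ)) h7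
      rw [Int.cast_natCast] at h13
      rw [h13, Int.cast_max, Int.cast_sub, Int.cast_zero]
      refine max_le (by linarith) ?_
      have : (0 : ℚ) ≤ (h : ℚ) / M := by positivity
      linarith
    have h14 : ((c : ℚ) : ℝ) ≤ (((h : ℚ) / M + 1 : ℚ) : ℝ) := by exact_mod_cast h12
    rw [hM] at h14
    push_cast at h14
    exact h14
  exact le_trans (by exact_mod_cast h5) h6

end Pool.Agent.Helper7.PTX
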