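import Pool.Agent.Helper7.PTX.Asy
import Pool.Agent.ERB.Num

set_option autoImplicit false

/-!
# PTX / Kill: few elements of the window lie in a thin family of residue classes

`A r` is a finite set of reduced classes modulo `r`, at most `K 2^(κ j)` in total for the moduli of the dyadic block
`IB j`, `j ≥ j0`, `κ = δ/2`.  Among the elements `m l` of the window (`l > m` prime, `m = 1` or `m` prime), the number
of those in a class `a ∈ A r`, `(m, r) = 1`, is at most `(C/(δ φ(r))) h/(m log N)` for `r² ≤ N^δ/2` (`cls_asy`) and at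
most `h/(m r) + 1` for `r² > N^δ/2` (`triv_le`); `1/φ(r) ≤ 10 r^(-3/4)`.  The sum over `2^j0 ≤ r ≤ 2 N` is
`< c h/(m log N)` for large `j0` and `N`.  (For `m ∣ r` no multiple of `m` is in a reduced class modulo `r`.)
-/

open Filter Finset Real Pool.Agent.PTH

namespace Pool.Agent.Helper7.PTX

/-- dyadic blocks of integers -/
def IB (j : ℕ) : Finset ℕ := Finset.Icc (2 ^ j) (2 ^ (j + 1))

/-- a lower bound of Euler's function -/
private lemma phi_low' {r : ℕ} (hr : 1 ≤ r) :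
    1 / (Nat.totient r : ℝ) ≤ 10 * (r : ℝ) ^ (-(3 / 4) : ℝ) := by
  have hr1 : (1 : ℝ) ≤ r := by exact_mod_cast hr
  have hr0 : (0 : ℝ) < r := by linarith
  have h1 := ERB.phi_low r hr
  have h2 : log r ≤ (r : ℝ) ^ (1 / 4 : ℝ) / (1 / 4) := Real.log_le_rpow_div hr0.le (by norm_num)
  have h3 : 1 ≤ (r : ℝ) ^ (1 / 4 : ℝ) := one_le_rpow hr1 (by norm_num)
  refine h1.trans ?_
  rw [div_le_iff₀ hr0]
  have h4 : (r : ℝ) ^ (-(3 / 4) : ℝ) * r = (r : ℝ) ^ (1 / 4 : ℝ) := by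
    nth_rw 2 [← rpow_one (r : ℝ)]
    rw [← rpow_add hr0]
    norm_num
  rw [mul_assoc, h4]
  linarith

/-- a finite geometric sum -/
private lemma geo {ρ : ℝ} (h0 : 0 < ρ) (h1 : ρ < 1) (j0 J : ℕ) :
    ∑ j ∈ Finset.Icc j0 J, ρ ^ j ≤ ρ ^ j0 / (1 - ρ) := by
  have h2 : (0 : ℝ) < 1 - ρ := by linarith
  rw [le_div_iff₀ h2]
  rcases lt_or_ge J j0 with h | h
  · rw [Finset.Icc_eq_empty (by omega), Finset.sum_empty, zero_mul]
    positivity
  · induction J, h using Nat.le_induction with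
    | base => 
      rw [Finset.Icc_self, Finset.sum_singleton]
      have : 0 < ρ ^ j0 := by positivity
      nlinarith
    | succ n hn ih =>
      have key : ∀ n, j0 ≤ n → (∑ j ∈ Finset.Icc j0 n, ρ ^ j) * (1 - ρ) = ρ ^ j0 - ρ ^ (n + 1) := by
        intro n hn
        induction n, hn using Nat.le_induction with
        | base => rw [Finset.Icc_self, Finset.sum_singleton]; ring
        | succ k hk ihk =>
          rw [Finset.sum_Icc_succ_top (by omega), add_mul, ihk]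
          ring
      rw [key (n + 1) (by omega)]
      have : 0 < ρ ^ (n + 1 + 1) := by positivity
      linarith

/-- `r^(κ-1) ≤ ρ^j` for `2^j ≤ r`, `κ ≤ 1/2`, `ρ = 2^(-1/2)` -/
private lemma rpow_blk {κ : ℝ} (hκ : κ ≤ 1 / 2) (j r : ℕ) (hr : 2 ^ j ≤ r) :
    (r : ℝ) ^ (κ - 1) ≤ ((2 : ℝ) ^ (-(1 / 2) : ℝ)) ^ j := by
  have h1 : (1 : ℝ) ≤ (2 : ℝ) ^ j := one_le_pow₀ (by norm_num)
  have h2 : ((2 : ℝ) ^ j) ≤ (r : ℝ) := by exact_mod_cast hr
  calc (r : ℝ) ^ (κ - 1) ≤ (r : ℝ) ^ (-(1 / 2) : ℝ) :=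
        rpow_le_rpow_of_exponent_le (h1.trans h2) (by linarith)
    _ ≤ ((2 : ℝ) ^ j) ^ (-(1 / 2) : ℝ) :=
        rpow_le_rpow_of_nonpos (by positivity) h2 (by norm_num)
    _ = ((2 : ℝ) ^ (-(1 / 2) : ℝ)) ^ j := by
        rw [← rpow_natCast, ← rpow_natCast, ← rpow_mul (by norm_num), ← rpow_mul (by norm_num),
          mul_comm]

/-- numerical facts for large `N` -/
private lemma ev_num (C1 : ℝ) (hC1 : 0 ≤ C1) (c δ : ℝ) (hc : 0 < c) (hδ : 0 < δ) (hδ2 : δ ≤ 1 / 2000) :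
    ∀ᶠ N : ℕ in atTop, 3 ≤ N ∧ 1 ≤ (N : ℝ) ^ δ / 2 ∧
      (2 * (N : ℝ)) ^ (δ / 2) ≤ ((N : ℝ) ^ δ / 2) ^ (3 / 4 : ℝ) ∧
      16 * (C1 + 1) * log N * log N < c * ((N : ℝ) ^ δ / 2) ^ (1 / 4 : ℝ) := by
  have e1 : ∀ᶠ x : ℝ in atTop, 2 ≤ x ^ δ ∧ 4 ≤ x ^ (δ / 4) ∧
      16 * (C1 + 1) / c * log x ^ (2 : ℝ) ≤ x ^ (δ / 8) ∧ 2 ≤ x ^ (δ / 8) ∧ 3 ≤ x := by
    have h1 := (isLittleO_log_rpow_rpow_atTop (2 : ℝ) (show (0 : ℝ) < δ / 8 by positivity))
    have h2 := h1.bound (show (0 : ℝ) < (16 * (C1 + 1) / c)⁻¹ by positivity)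
    filter_upwards [(tendsto_rpow_atTop hδ).eventually_ge_atTop (2 : ℝ),
      (tendsto_rpow_atTop (show (0 : ℝ) < δ / 4 by positivity)).eventually_ge_atTop (4 : ℝ), h2,
      (tendsto_rpow_atTop (show (0 : ℝ) < δ / 8 by positivity)).eventually_ge_atTop (2 : ℝ),
      eventually_ge_atTop (3 : ℝ)] with x h3 h4 h5 h6 h7
    refine ⟨h3, h4, ?_, h6, h7⟩
    have hlog : 0 < log x := log_pos (by linarith)
    have hx0 : (0 : ℝ) < x := by linarith
    rw [Real.norm_of_nonneg (by positivity), Real.norm_of_nonneg (by positivity)] at h5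
    have h8 : (0 : ℝ) < 16 * (C1 + 1) / c := by positivity
    rw [← le_div_iff₀' h8, div_eq_inv_mul]
    exact h5
  filter_upwards [tendsto_natCast_atTop_atTop.eventually e1] with N hN
  obtain ⟨h1, h2, h3, h4, h5⟩ := hN
  have hN0 : (0 : ℝ) < N := by linarith
  have hlog : 0 < log N := log_pos (by linarith)
  refine ⟨by exact_mod_cast h5, by linarith, ?_, ?_⟩
  · rw [mul_rpow (by norm_num) hN0.le, div_rpow (by positivity) (by norm_num), ← rpow_mul hN0.le,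
      le_div_iff₀ (by positivity)]
    have e : δ * (3 / 4) = δ / 4 + δ / 2 := by ring
    rw [e, rpow_add hN0]
    have h6 : (2 : ℝ) ^ (δ / 2) ≤ 2 := by
      calc (2 : ℝ) ^ (δ / 2) ≤ 2 ^ (1 : ℝ) := rpow_le_rpow_of_exponent_le (by norm_num) (by linarith)
        _ = 2 := by norm_num
    have h7 : (2 : ℝ) ^ (3 / 4 : ℝ) ≤ 2 := by
      calc (2 : ℝ) ^ (3 / 4 : ℝ) ≤ 2 ^ (1 : ℝ) :=
            rpow_le_rpow_of_exponent_le (by norm_num) (by norm_num)
        _ = 2 := by norm_num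
    have h8 : (0 : ℝ) < (N : ℝ) ^ (δ / 2) := by positivity
    have h9 : (2 : ℝ) ^ (δ / 2) * (2 : ℝ) ^ (3 / 4 : ℝ) ≤ 2 * 2 :=
      mul_le_mul h6 h7 (by positivity) (by norm_num)
    calc 2 ^ (δ / 2) * (N : ℝ) ^ (δ / 2) * 2 ^ (3 / 4 : ℝ)
        = (2 ^ (δ / 2) * 2 ^ (3 / 4 : ℝ)) * (N : ℝ) ^ (δ / 2) := by ring
      _ ≤ 4 * (N : ℝ) ^ (δ / 2) := mul_le_mul_of_nonneg_right (by linarith) h8.le
      _ ≤ (N : ℝ) ^ (δ / 4) * (N : ℝ) ^ (δ / 2) := mul_le_mul_of_nonneg_right h2 h8.le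
  · have h6 : (N : ℝ) ^ (δ / 8) < ((N : ℝ) ^ δ / 2) ^ (1 / 4 : ℝ) := by
      rw [div_rpow (by positivity) (by norm_num), ← rpow_mul hN0.le, lt_div_iff₀ (by positivity)]
      have e : δ * (1 / 4) = δ / 8 + δ / 8 := by ring
      rw [e, rpow_add hN0]
      have h7 : (2 : ℝ) ^ (1 / 4 : ℝ) < 2 := by
        calc (2 : ℝ) ^ (1 / 4 : ℝ) < 2 ^ (1 : ℝ) :=
              rpow_lt_rpow_of_exponent_lt (by norm_num) (by norm_num)
          _ = 2 := by norm_num
      have h8 : (0 : ℝ) < (N : ℝ) ^ (δ / 8) := by positivity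
      exact mul_lt_mul_of_pos_left (lt_of_lt_of_le h7 h4) h8
    have h7 : 16 * (C1 + 1) * log N * log N = c * (16 * (C1 + 1) / c * log N ^ (2 : ℝ)) := by
      rw [show (2 : ℝ) = ((2 : ℕ) : ℝ) by norm_num, rpow_natCast]
      field_simp
    rw [h7]
    exact mul_lt_mul_of_pos_left (lt_of_le_of_lt h3 h6) hc

theorem kill (K : ℝ) (hK : 0 ≤ K) (c δ : ℝ) (hc : 0 < c) (hδ : 0 < δ) (hδ2 : δ ≤ 1 / 2000) :
    ∃ j0 N0 : ℕ, ∀ A : ℕ → Finset ℕ,
    (∀ j, j0 ≤ j → ∑ r ∈ IB j, ((A r).card : ℝ) ≤ K * ((2 : ℝ) ^ j) ^ (δ / 2)) →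
    ∀ N, N0 ≤ N → ∀ m, m ≤ hd (2 * δ) N → (m = 1 ∨ m.Prime) →
    c * ((hd δ N : ℝ) / (m * log N)) ≤ ((QQ N (hd δ N) m).card : ℝ) →
    ∃ n ∈ QQ N (hd δ N) m, ∀ r : ℕ, Nat.Coprime m r → 2 ^ j0 ≤ r → r ≤ n →
      ∀ a ∈ A r, ¬ n ≡ a [MOD r] := by
  classical
  obtain ⟨C, hC, hcls⟩ := cls_asy
  set ρ : ℝ := (2 : ℝ) ^ (-(1 / 2) : ℝ) with hρ
  have hρ0 : 0 < ρ := by positivity
  have hρ1 : ρ < 1 := by
    rw [hρ]
    exact rpow_lt_one_of_one_lt_of_neg (by norm_num) (by norm_num)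
  have h1ρ : (0 : ℝ) < 1 - ρ := by linarith
  -- the choice of `j0`
  obtain ⟨j0, hj0⟩ : ∃ j0 : ℕ, K * (10 * C / δ) * (ρ ^ j0 / (1 - ρ)) < c / 2 := by
    obtain ⟨j0, hj0⟩ := exists_pow_lt_of_lt_one
      (show (0 : ℝ) < c / 2 * (1 - ρ) / (K * (10 * C / δ) + 1) by positivity) hρ1
    refine ⟨j0, ?_⟩
    rw [lt_div_iff₀ (by positivity)] at hj0
    rw [mul_div_assoc', div_lt_iff₀ h1ρ]
    have h1 : 0 < ρ ^ j0 := by positivity
    nlinarith
  obtain ⟨N0, hN0⟩ := eventually_atTop.1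
    ((hd_facts δ hδ hδ2).and ((hcls δ hδ hδ2).and (ev_num K hK c δ hc hδ hδ2)))
  refine ⟨j0, N0, ?_⟩
  intro A hA N hN m hmle hm hcard
  obtain ⟨hf, hcl, hnum⟩ := hN0 N hN
  obtain ⟨hN3, h2h, hD1, hDh, hhle, hhge, hmr⟩ := hf
  obtain ⟨-, hY1, hY3, hY4⟩ := hnum
  have hm1 : 1 ≤ m := by
    rcases hm with h | h
    · omega
    · exact h.one_lt.le
  have hNpos : (0 : ℝ) < N := by exact_mod_cast (by omega : 0 < N)
  have hlog : 0 < log N := log_pos (by exact_mod_cast (by omega : 1 < N))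
  set h : ℕ := hd δ N with hh
  set Y : ℝ := (N : ℝ) ^ δ / 2 with hY
  have hY0 : 0 < Y := by linarith
  have hm0 : (0 : ℝ) < m := by exact_mod_cast hm1
  set G : ℝ := (h : ℝ) / m with hG
  have hGY : Y ≤ G := hmr m hm1 hmle
  have hG0 : 0 < G := by linarith
  have hcard' : c * (G / log N) ≤ ((QQ N h m).card : ℝ) := by
    have e : (h : ℝ) / (m * log N) = G / log N := by rw [hG]; field_simp
    rw [← e]
    exact hcard
  set J : ℕ := Nat.log 2 (2 * N) with hJ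
  -- the bad elements
  set bad : Finset ℕ := (Finset.Icc j0 J).biUnion (fun j =>
    ((IB j).filter (fun r => Nat.Coprime m r ∧ r ≤ 2 * N)).biUnion (fun r =>
      (A r).biUnion (fun a => (QQ N h m).filter (fun n => n ≡ a [MOD r])))) with hbad
  -- one prime
  have hone : ∀ j, ∀ r ∈ (IB j).filter (fun r => Nat.Coprime m r ∧ r ≤ 2 * N),
      ∑ a ∈ A r, (((QQ N h m).filter (fun n => n ≡ a [MOD r])).card : ℝ) ≤ ((A r).card : ℝ) *
      (G * (10 * C / δ * ρ ^ j / log N + 2 * Y ^ (-(1 / 4) : ℝ)) / ((2 : ℝ) ^ j) ^ (δ / 2)) := by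
    intro j r hr
    rw [Finset.mem_filter] at hr
    obtain ⟨hrRP, hcop, hr2⟩ := hr
    unfold IB at hrRP
    have hr4 := (Finset.mem_Icc.1 hrRP).1
    have hrn1 : 1 ≤ r := (Nat.one_le_two_pow).trans hr4
    have hr1 : (1 : ℝ) ≤ r := by exact_mod_cast hrn1
    have hr0 : (0 : ℝ) < r := by linarith
    have hY4' : 0 < Y ^ (-(1 / 4) : ℝ) := by positivity
    have hρj : 0 < ρ ^ j := by positivity
    have hT0 : 0 < ((2 : ℝ) ^ j) ^ (δ / 2) := by positivity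
    have hTr : ((2 : ℝ) ^ j) ^ (δ / 2) ≤ (r : ℝ) ^ (δ / 2) := by
      apply rpow_le_rpow (by positivity) _ (by positivity)
      exact_mod_cast hr4
    rw [← nsmul_eq_mul]
    refine Finset.sum_le_card_nsmul _ _ _ fun a _ => ?_
    rw [le_div_iff₀ hT0]
    rcases le_or_gt ((r : ℝ) ^ 2) Y with hrY | hrY
    · -- small `r`
      have h1 : (((QQ N h m).filter (fun n => n ≡ a [MOD r])).card : ℝ) ≤
          10 * C / δ * (r : ℝ) ^ (-(3 / 4) : ℝ) * (G / log N) := by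
        refine (hcl m hm1 hmle r a hrn1 hcop hrY).trans ?_
        have e : (h : ℝ) / (m * log N) = G / log N := by rw [hG]; field_simp
        rw [e]
        apply mul_le_mul_of_nonneg_right _ (by positivity)
        calc C / δ / (Nat.totient r : ℝ) = C / δ * (1 / (Nat.totient r : ℝ)) := by ring
          _ ≤ C / δ * (10 * (r : ℝ) ^ (-(3 / 4) : ℝ)) :=
              mul_le_mul_of_nonneg_left (phi_low' hrn1) (by positivity)
          _ = 10 * C / δ * (r : ℝ) ^ (-(3 / 4) : ℝ) := by ring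
      have h3 : (r : ℝ) ^ (-(3 / 4) : ℝ) * (r : ℝ) ^ (δ / 2) ≤ ρ ^ j := by
        have h4 := rpow_blk (κ := δ / 2 + 1 / 4) (by linarith) j r hr4
        have h5 : (r : ℝ) ^ (-(3 / 4) : ℝ) * (r : ℝ) ^ (δ / 2) = (r : ℝ) ^ (δ / 2 + 1 / 4 - 1) := by
          rw [← rpow_add hr0]
          ring_nf
        rw [h5]
        exact h4
      calc (((QQ N h m).filter (fun n => n ≡ a [MOD r])).card : ℝ) * ((2 : ℝ) ^ j) ^ (δ / 2)
          ≤ (10 * C / δ * (r : ℝ) ^ (-(3 / 4) : ℝ) * (G / log N)) * (r : ℝ) ^ (δ / 2) := by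
            gcongr
        _ = 10 * C / δ * ((r : ℝ) ^ (-(3 / 4) : ℝ) * (r : ℝ) ^ (δ / 2)) * (G / log N) := by ring
        _ ≤ 10 * C / δ * ρ ^ j * (G / log N) := by gcongr
        _ = G * (10 * C / δ * ρ ^ j / log N) := by ring
        _ ≤ G * (10 * C / δ * ρ ^ j / log N + 2 * Y ^ (-(1 / 4) : ℝ)) := by
            apply mul_le_mul_of_nonneg_left _ hG0.le
            linarith
    · -- large `r`
      have h1 : (((QQ N h m).filter (fun n => n ≡ a [MOD r])).card : ℝ) ≤ G / r + 1 := by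
        refine (triv_le N h m r a hm1 hrn1 hcop (by omega)).trans (le_of_eq ?_)
        rw [hG, div_div]
      have h3 : (r : ℝ) ^ (δ / 2) / r ≤ Y ^ (-(1 / 4) : ℝ) := by
        have e : (r : ℝ) ^ (δ / 2) / r = (r : ℝ) ^ (δ / 2 - 1) := by rw [rpow_sub hr0, rpow_one]
        rw [e]
        calc (r : ℝ) ^ (δ / 2 - 1) ≤ (r : ℝ) ^ (-(1 / 2) : ℝ) :=
              rpow_le_rpow_of_exponent_le hr1 (by linarith)
          _ = ((r : ℝ) ^ 2) ^ (-(1 / 4) : ℝ) := by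
              rw [← rpow_natCast, ← rpow_mul hr0.le]
              norm_num
          _ ≤ Y ^ (-(1 / 4) : ℝ) := rpow_le_rpow_of_nonpos hY0 hrY.le (by norm_num)
      have h4 : (r : ℝ) ^ (δ / 2) ≤ G * Y ^ (-(1 / 4) : ℝ) := by
        have h5 : (r : ℝ) ≤ 2 * N := by exact_mod_cast hr2
        calc (r : ℝ) ^ (δ / 2)
            ≤ (2 * (N : ℝ)) ^ (δ / 2) := rpow_le_rpow (by positivity) h5 (by linarith)
          _ ≤ Y ^ (3 / 4 : ℝ) := hY3
          _ = Y * Y ^ (-(1 / 4) : ℝ) := by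
              nth_rw 2 [← rpow_one Y]
              rw [← rpow_add hY0]
              norm_num
          _ ≤ G * Y ^ (-(1 / 4) : ℝ) := mul_le_mul_of_nonneg_right hGY hY4'.le
      calc (((QQ N h m).filter (fun n => n ≡ a [MOD r])).card : ℝ) * ((2 : ℝ) ^ j) ^ (δ / 2)
          ≤ (G / r + 1) * (r : ℝ) ^ (δ / 2) := by
            gcongr
        _ = G * ((r : ℝ) ^ (δ / 2) / r) + (r : ℝ) ^ (δ / 2) := by ring
        _ ≤ G * Y ^ (-(1 / 4) : ℝ) + G * Y ^ (-(1 / 4) : ℝ) :=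
            add_le_add (mul_le_mul_of_nonneg_left h3 hG0.le) h4
        _ = G * (2 * Y ^ (-(1 / 4) : ℝ)) := by ring
        _ ≤ G * (10 * C / δ * ρ ^ j / log N + 2 * Y ^ (-(1 / 4) : ℝ)) := by
            apply mul_le_mul_of_nonneg_left _ hG0.le
            have : 0 ≤ 10 * C / δ * ρ ^ j / log N := by positivity
            linarith
  -- all primes
  have hbadcard : (bad.card : ℝ) < c * (G / log N) := by
    have h1 : (bad.card : ℝ) ≤ ∑ j ∈ Finset.Icc j0 J,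
        ∑ r ∈ (IB j).filter (fun r => Nat.Coprime m r ∧ r ≤ 2 * N),
        ∑ a ∈ A r, (((QQ N h m).filter (fun n => n ≡ a [MOD r])).card : ℝ) := by
      have h2 : bad.card ≤ ∑ j ∈ Finset.Icc j0 J,
          ∑ r ∈ (IB j).filter (fun r => Nat.Coprime m r ∧ r ≤ 2 * N),
          ∑ a ∈ A r, ((QQ N h m).filter (fun n => n ≡ a [MOD r])).card := by
        refine Finset.card_biUnion_le.trans (Finset.sum_le_sum fun j _ => ?_)
        refine Finset.card_biUnion_le.trans (Finset.sum_le_sum fun r _ => ?_)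
        exact Finset.card_biUnion_le
      exact_mod_cast h2
    have h2 : ∀ j ∈ Finset.Icc j0 J, ∑ r ∈ (IB j).filter (fun r => Nat.Coprime m r ∧ r ≤ 2 * N),
        ∑ a ∈ A r, (((QQ N h m).filter (fun n => n ≡ a [MOD r])).card : ℝ) ≤
        K * (G * (10 * C / δ * ρ ^ j / log N + 2 * Y ^ (-(1 / 4) : ℝ))) := by
      intro j hj
      have h3 := Finset.sum_le_sum (hone j)
      rw [← Finset.sum_mul] at h3
      refine h3.trans ?_
      have hT0 : 0 < ((2 : ℝ) ^ j) ^ (δ / 2) := by positivity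
      have h4 : ∑ r ∈ (IB j).filter (fun r => Nat.Coprime m r ∧ r ≤ 2 * N), ((A r).card : ℝ) ≤
          K * ((2 : ℝ) ^ j) ^ (δ / 2) := by
        refine le_trans ?_ (hA j (Finset.mem_Icc.1 hj).1)
        exact Finset.sum_le_sum_of_subset_of_nonneg (Finset.filter_subset _ _)
          (fun _ _ _ => Nat.cast_nonneg _)
      calc _ ≤ K * ((2 : ℝ) ^ j) ^ (δ / 2) *
            (G * (10 * C / δ * ρ ^ j / log N + 2 * Y ^ (-(1 / 4) : ℝ)) /
              ((2 : ℝ) ^ j) ^ (δ / 2)) := mul_le_mul_of_nonneg_right h4 (by positivity)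
        _ = _ := by field_simp
    have h3 : ∑ j ∈ Finset.Icc j0 J,
        K * (G * (10 * C / δ * ρ ^ j / log N + 2 * Y ^ (-(1 / 4) : ℝ))) ≤
        K * (10 * C / δ) * (ρ ^ j0 / (1 - ρ)) * (G / log N) +
        K * (J + 1) * (2 * Y ^ (-(1 / 4) : ℝ)) * G := by
      have e1 : ∀ j ∈ Finset.Icc j0 J,
          K * (G * (10 * C / δ * ρ ^ j / log N + 2 * Y ^ (-(1 / 4) : ℝ))) =
          K * (10 * C / δ) * (G / log N) * ρ ^ j + K * (2 * Y ^ (-(1 / 4) : ℝ)) * G := by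
        intro j _
        ring
      rw [Finset.sum_congr rfl e1, Finset.sum_add_distrib, ← Finset.mul_sum, Finset.sum_const,
        nsmul_eq_mul, Nat.card_Icc]
      have h4 := geo hρ0 hρ1 j0 J
      have h5 : ((J + 1 - j0 : ℕ) : ℝ) ≤ (J : ℝ) + 1 := by
        have : J + 1 - j0 ≤ J + 1 := Nat.sub_le _ _
        exact_mod_cast this
      have h6 : K * (10 * C / δ) * (G / log N) * ∑ j ∈ Finset.Icc j0 J, ρ ^ j ≤
          K * (10 * C / δ) * (G / log N) * (ρ ^ j0 / (1 - ρ)) :=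
        mul_le_mul_of_nonneg_left h4 (by positivity)
      have h7 : ((J + 1 - j0 : ℕ) : ℝ) * (K * (2 * Y ^ (-(1 / 4) : ℝ)) * G) ≤
          ((J : ℝ) + 1) * (K * (2 * Y ^ (-(1 / 4) : ℝ)) * G) :=
        mul_le_mul_of_nonneg_right h5 (by positivity)
      calc _ ≤ K * (10 * C / δ) * (G / log N) * (ρ ^ j0 / (1 - ρ)) +
            ((J : ℝ) + 1) * (K * (2 * Y ^ (-(1 / 4) : ℝ)) * G) := add_le_add h6 h7
        _ = _ := by ring
    -- `J + 1 ≤ 4 log N`
    have hJ4 : (J : ℝ) + 1 ≤ 4 * log N := by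
      have h4 : 2 ^ J ≤ 2 * N := Nat.pow_log_le_self 2 (by omega)
      have h5 : ((2 : ℝ)) ^ J ≤ 2 * N := by exact_mod_cast h4
      have h6 := log_le_log (by positivity) h5
      rw [log_pow, log_mul (by norm_num) (by positivity)] at h6
      have h7 := Real.log_two_gt_d9
      have h8 := Real.log_two_lt_d9
      have h9 : 1 ≤ log N := by
        have h10 : Real.exp 1 ≤ N := by
          have h11 := Real.exp_one_lt_d9
          have h12 : (3 : ℝ) ≤ N := by exact_mod_cast hN3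
          linarith
        rw [Real.le_log_iff_exp_le hNpos]
        exact h10
      have hJ0 : (0 : ℝ) ≤ J := Nat.cast_nonneg _
      have h10 : (J : ℝ) * 0.69 ≤ log N + 0.7 := by
        have : (J : ℝ) * 0.69 ≤ J * log 2 := mul_le_mul_of_nonneg_left (by linarith) hJ0
        linarith
      linarith
    have h4 : K * ((J : ℝ) + 1) * (2 * Y ^ (-(1 / 4) : ℝ)) * G ≤ c / 2 * (G / log N) := by
      have h5 : Y ^ (-(1 / 4) : ℝ) * Y ^ (1 / 4 : ℝ) = 1 := by
        rw [← rpow_add hY0]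
        norm_num
      have h6 : 0 < Y ^ (-(1 / 4) : ℝ) := by positivity
      have h7 : 16 * (K + 1) * log N * log N * Y ^ (-(1 / 4) : ℝ) ≤ c := by
        calc 16 * (K + 1) * log N * log N * Y ^ (-(1 / 4) : ℝ)
            ≤ c * Y ^ (1 / 4 : ℝ) * Y ^ (-(1 / 4) : ℝ) :=
              mul_le_mul_of_nonneg_right hY4.le h6.le
          _ = c := by rw [mul_assoc, mul_comm (Y ^ (1 / 4 : ℝ)), h5, mul_one]
      calc K * ((J : ℝ) + 1) * (2 * Y ^ (-(1 / 4) : ℝ)) * G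
          ≤ (K + 1) * (4 * log N) * (2 * Y ^ (-(1 / 4) : ℝ)) * G := by
            gcongr
            linarith
        _ = 16 * (K + 1) * log N * log N * Y ^ (-(1 / 4) : ℝ) * (1 / 2) * (G / log N) := by
            field_simp
            ring
        _ ≤ c * (1 / 2) * (G / log N) := by
            apply mul_le_mul_of_nonneg_right _ (by positivity)
            linarith
        _ = c / 2 * (G / log N) := by ring
    have h5 : K * (10 * C / δ) * (ρ ^ j0 / (1 - ρ)) * (G / log N) < c / 2 * (G / log N) :=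
      mul_lt_mul_of_pos_right hj0 (by positivity)
    calc (bad.card : ℝ) ≤ _ := h1
      _ ≤ _ := Finset.sum_le_sum h2
      _ ≤ _ := h3
      _ < c / 2 * (G / log N) + c / 2 * (G / log N) := by linarith
      _ = c * (G / log N) := by ring
  -- conclusion
  by_contra hcon
  push Not at hcon
  have hsub : QQ N h m ⊆ bad := by
    intro n hn
    obtain ⟨r, hcop, hrj, hrn, a, ha, hna⟩ := hcon n hn
    rw [hbad, Finset.mem_biUnion]
    have hn' := (mem_QQ.1 hn).1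
    rw [PSK.mem_JH] at hn'
    have hr2 : r ≤ 2 * N := by omega
    refine ⟨Nat.log 2 r, Finset.mem_Icc.2 ⟨Nat.le_log_of_pow_le (by norm_num) hrj, ?_⟩, ?_⟩
    · exact Nat.log_mono_right hr2
    · rw [Finset.mem_biUnion]
      have hr0 : r ≠ 0 := by
        have : 1 ≤ 2 ^ j0 := Nat.one_le_two_pow
        omega
      refine ⟨r, Finset.mem_filter.2 ⟨?_, hcop, hr2⟩, ?_⟩
      · unfold IB
        exact Finset.mem_Icc.2 ⟨Nat.pow_log_le_self 2 hr0,
          (Nat.lt_pow_succ_log_self (by norm_num) r).le⟩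
      · rw [Finset.mem_biUnion]
        exact ⟨a, ha, Finset.mem_filter.2 ⟨hn, hna⟩⟩
  have h1 : ((QQ N h m).card : ℝ) ≤ bad.card := by exact_mod_cast Finset.card_le_card hsub
  linarith

end Pool.Agent.Helper7.PTX
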