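import Pool.Agent.Helper7.PTX.Wgt
import Pool.Agent.Helper7.PTX.Kill
import Pool.Agent.PSQ.Hit

set_option autoImplicit false

/-!
# PTX / Fin: final assembly

`weights_ge` and `PSQ.hitting` (`S = {N ≥ N1 : fewer than c h/log N primes in JH N h}`, `R j = RP j`, `K j = C1`)
give `M j`; `E = ⋃ M j`.  For `N = ⌊x⌋` large either the window has `≥ c h/log N` primes (`m = 1`) or some
`m = p ∈ E`, `p ≥ zz N`, has `≥ c h/(p log N)` products `p l` in the window; `kill` removes the products in a class of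
the given thin family with modulus prime to `m`; multiples of `m` are not in reduced classes modulo multiples of `m`.
-/

open Filter Finset Real Pool.Agent.PTH

namespace Pool.Agent.Helper7.PTX

private lemma mem_JJ_real {δ : ℝ} (hδ1 : δ ≤ 1 / 100000) {N n : ℕ} {x : ℝ}
    (hx : 1 ≤ x) (hN : N = ⌊x⌋₊) (hn : n ∈ PSK.JH N (hd δ N)) :
    x < n ∧ (n : ℝ) < x + x ^ (1 / 2 - δ) := by
  rw [PSK.mem_JH] at hn
  have h1 : x < N + 1 := by rw [hN]; exact Nat.lt_floor_add_one x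
  have h2 : (N : ℝ) ≤ x := by rw [hN]; exact Nat.floor_le (by linarith)
  have h3 : ((N + 1 : ℕ) : ℝ) ≤ n := by exact_mod_cast hn.1
  have h4 : (n : ℝ) < ((N + hd δ N : ℕ) : ℝ) := by exact_mod_cast hn.2
  push_cast at h3 h4
  have h5 : (hd δ N : ℝ) ≤ x ^ (1 / 2 - δ) := by
    unfold hd
    refine (Nat.floor_le (by positivity)).trans ?_
    exact Real.rpow_le_rpow (Nat.cast_nonneg _) h2 (by linarith)
  constructor <;> linarith

theorem main : ∃ (E : Set ℕ) (δ κ : ℝ) (C : ℕ), 0 < δ ∧ 0 < κ ∧ (∀ p ∈ E, p.Prime) ∧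
    (∀ y : ℕ, 1 ≤ y → {p : ℕ | p ∈ E ∧ y ≤ p ∧ p ≤ 2 * y}.ncard ≤ C) ∧
    ∀ K : ℕ, ∃ (z : ℕ) (x0 : ℝ), ∀ A : ℕ → Finset ℕ, (∀ r, ∀ a ∈ A r, Nat.Coprime a r) →
    (∀ y : ℕ, 1 ≤ y → ∑ r ∈ Finset.Icc y (2 * y), ((A r).card : ℝ) ≤ K * (y : ℝ) ^ κ) →
    ∀ x : ℝ, x0 ≤ x → ∃ n : ℕ, x < n ∧ (n : ℝ) < x + x ^ (1 / 2 - δ) ∧
      (∀ p : ℕ, p.Prime → p ^ 2 ≤ n → p ∣ n → p ∈ E ∧ z ≤ p) ∧
      ∀ r : ℕ, z ≤ r → r ≤ n → ∀ a ∈ A r, ¬ n ≡ a [MOD r] := by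
  classical
  obtain ⟨δ, c, C1, N1, hδ, hδ1, hc, hN1, hw⟩ := weights_ge
  obtain ⟨M, hM, hhit⟩ := PSQ.hitting RP RP_nonempty (fun _ => C1)
    {N : ℕ | N1 ≤ N ∧ ((QQ N (hd δ N) 1).card : ℝ) < c * ((hd δ N : ℝ) / Real.log N)}
    (fun N hN => hN1.trans hN.1) (Gd c δ) (fun N => Nat.log 2 (hd (2 * δ) N) + 1)
    (fun N hN => hw N hN.1 hN.2)
  refine ⟨{p | ∃ j, p ∈ M j}, δ, δ / 2, 3 * C1, hδ, by positivity, ?_, ?_, ?_⟩
  · rintro p ⟨j, hj⟩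
    have := (hM j).1 hj
    rw [RP, mem_filter] at this
    exact this.2
  · intro y hy
    have h1 := countE2 C1 M hM (y : ℝ) (by exact_mod_cast hy)
    have h2 : {p : ℕ | p ∈ {p | ∃ j, p ∈ M j} ∧ y ≤ p ∧ p ≤ 2 * y} =
        {p : ℕ | (∃ j, p ∈ M j) ∧ (y : ℝ) ≤ p ∧ (p : ℝ) ≤ 2 * (y : ℝ)} := by
      ext p
      simp only [Set.mem_ofPred_eq]
      constructor
      · rintro ⟨h3, h4, h5⟩
        exact ⟨h3, by exact_mod_cast h4, by exact_mod_cast h5⟩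
      · rintro ⟨h3, h4, h5⟩
        exact ⟨h3, by exact_mod_cast h4, by exact_mod_cast h5⟩
    rw [h2]
    exact h1
  intro K
  obtain ⟨j0, N2, hkill⟩ := kill (K : ℝ) (Nat.cast_nonneg _) c δ hc hδ (by linarith)
  obtain ⟨N3, hN3⟩ : ∃ N3 : ℕ, ∀ N, N3 ≤ N → 2 ^ j0 ≤ zz N ∧ 1 ≤ hd (2 * δ) N := by
    have h1 : Tendsto (fun N : ℕ => zz N) atTop atTop := by
      unfold zz
      exact tendsto_nat_floor_atTop.comp ((tendsto_rpow_atTop (by norm_num)).comp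
        tendsto_natCast_atTop_atTop)
    have h2 := (h1.eventually_ge_atTop (2 ^ j0)).and (hd_facts δ hδ (by linarith))
    obtain ⟨N3, hN3⟩ := eventually_atTop.1 h2
    exact ⟨N3, fun N hN => ⟨(hN3 N hN).1, (hN3 N hN).2.2.2.1⟩⟩
  set N0 : ℕ := max (max N1 N2) N3 with hN0
  refine ⟨2 ^ j0, N0 + 1, ?_⟩
  intro A hAc hA x hx
  have hx1 : 1 ≤ x := by
    have : (0 : ℝ) ≤ N0 := Nat.cast_nonneg _
    linarith
  set N := ⌊x⌋₊ with hN
  have hNN0 : N0 ≤ N := Nat.le_floor (by linarith)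
  have hNN1 : N1 ≤ N := (le_max_left _ _).trans ((le_max_left _ _).trans hNN0)
  have hNN2 : N2 ≤ N := (le_max_right _ _).trans ((le_max_left _ _).trans hNN0)
  have hNN3 : N3 ≤ N := (le_max_right _ _).trans hNN0
  obtain ⟨hzz, hhd⟩ := hN3 N hNN3
  have hA' : ∀ j, j0 ≤ j → ∑ r ∈ IB j, ((A r).card : ℝ) ≤ K * ((2 : ℝ) ^ j) ^ (δ / 2) := by
    intro j _
    have h1 := hA (2 ^ j) Nat.one_le_two_pow
    rw [← pow_succ'] at h1
    push_cast at h1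
    exact h1
  -- the end of the proof, for `m = 1` or `m ∈ E`
  have hend : ∀ m : ℕ, (m = 1 ∨ (m.Prime ∧ (∃ j, m ∈ M j) ∧ 2 ^ j0 ≤ m)) →
      (∃ n ∈ QQ N (hd δ N) m, ∀ r : ℕ, Nat.Coprime m r → 2 ^ j0 ≤ r → r ≤ n →
        ∀ a ∈ A r, ¬ n ≡ a [MOD r]) →
      ∃ n : ℕ, x < n ∧ (n : ℝ) < x + x ^ (1 / 2 - δ) ∧
        (∀ p : ℕ, p.Prime → p ^ 2 ≤ n → p ∣ n → p ∈ {p | ∃ j, p ∈ M j} ∧ 2 ^ j0 ≤ p) ∧
        ∀ r : ℕ, 2 ^ j0 ≤ r → r ≤ n → ∀ a ∈ A r, ¬ n ≡ a [MOD r] := by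
    intro m hm hn
    obtain ⟨n, hnQ, hnA⟩ := hn
    obtain ⟨hnJ, l, hl, hml, hnml⟩ := mem_QQ.1 hnQ
    obtain ⟨ha, hb⟩ := mem_JJ_real hδ1 hx1 hN hnJ
    refine ⟨n, ha, hb, fun p hp hpn hdvd => ?_, fun r hr hrn a haA hna => ?_⟩
    · rw [hnml, hp.dvd_mul] at hdvd
      rcases hdvd with h1 | h1
      · rcases hm with h2 | ⟨h2, h3, h4⟩
        · rw [h2] at h1
          exact absurd (Nat.dvd_one.1 h1) hp.one_lt.ne'
        · rw [Nat.prime_dvd_prime_iff_eq hp h2] at h1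
          rw [h1]
          exact ⟨h3, h4⟩
      · exfalso
        rw [Nat.prime_dvd_prime_iff_eq hp hl] at h1
        rw [h1, hnml, sq] at hpn
        have h2 := Nat.le_of_mul_le_mul_right hpn hl.pos
        omega
    · by_cases hcop : Nat.Coprime m r
      · exact hnA r hcop hr hrn a haA hna
      · rcases hm with h2 | ⟨h2, h3, h4⟩
        · rw [h2] at hcop
          exact hcop (Nat.coprime_one_left r)
        · have h5 : m ∣ r := (Nat.Prime.dvd_iff_not_coprime h2).2 hcop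
          have h6 : m ∣ n := by
            rw [hnml]
            exact dvd_mul_right _ _
          have h7 : m ∣ a := (Nat.ModEq.dvd_iff hna h5).1 h6
          have h8 : m ∣ 1 := by
            have h9 := Nat.dvd_gcd h7 h5
            rwa [hAc r a haA] at h9
          exact h2.one_lt.ne' (Nat.dvd_one.1 h8)
  by_cases hpr : ((QQ N (hd δ N) 1).card : ℝ) < c * ((hd δ N : ℝ) / Real.log N)
  · obtain ⟨j, m, hm⟩ := hhit N ⟨hNN1, hpr⟩
    rw [Finset.mem_inter] at hm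
    obtain ⟨hmG, hmM⟩ := hm
    obtain ⟨h1, h2, h3, h4⟩ := mem_Gd.1 hmG
    exact hend m (Or.inr ⟨h2, ⟨j, hmM⟩, hzz.trans h3⟩)
      (hkill A hA' N hNN2 m h1 (Or.inr h2) h4)
  · push Not at hpr
    refine hend 1 (Or.inl rfl) (hkill A hA' N hNN2 1 hhd (Or.inl rfl) ?_)
    rw [Nat.cast_one, one_mul]
    exact hpr

end Pool.Agent.Helper7.PTX
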