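import Pool.Agent.Helper7.PTX.Asy
import Pool.Agent.Helper7.PT2.Dia2
import Pool.Agent.PTH.P2n
import Pool.Agent.PSQ.Mer

set_option autoImplicit false

/-!
# PTX / Mass: many primes, or a positive harmonic mass of good small factors

`Gd c δ N`: the primes `p` with `zz N ≤ p ≤ hd (2 δ) N` such that at least `c h/(p log N)` integers of the window
`JH N h`, `h = hd δ N`, are of the form `p l`, `l > p` prime.

`p2_lower`: `c₀ X/log N` integers of the window are primes or products `p q`, `zz N ≤ p < q` (`X = N^(1/2-δ)`);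
`diag2`: at most `(c₀/4) X/log N` of them have `p > hd (2 δ) N`; there are fewer than `c h/log N` primes by assumption;
the `p` outside `Gd` contribute at most `∑ c h/(p log N) ≤ 4 c h/log N`; each `p` in `Gd` at most
`(C/δ) h/(p log N)` (`cls_asy` with `r = 1`).
-/

open Filter Finset Real Pool.Agent.PTH

namespace Pool.Agent.Helper7.PTX

open scoped Classical in
/-- the good small factors -/
noncomputable def Gd (c δ : ℝ) (N : ℕ) : Finset ℕ :=
  (range (hd (2 * δ) N + 1)).filter (fun p => p.Prime ∧ zz N ≤ p ∧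
    c * ((hd δ N : ℝ) / (p * log N)) ≤ ((QQ N (hd δ N) p).card : ℝ))

lemma mem_Gd {c δ : ℝ} {N p : ℕ} : p ∈ Gd c δ N ↔ p ≤ hd (2 * δ) N ∧ p.Prime ∧ zz N ≤ p ∧
    c * ((hd δ N : ℝ) / (p * log N)) ≤ ((QQ N (hd δ N) p).card : ℝ) := by
  classical
  simp [Gd]

open scoped Classical in
/-- all primes in the range -/
noncomputable def AR (δ : ℝ) (N : ℕ) : Finset ℕ :=
  (range (hd (2 * δ) N + 1)).filter (fun p => p.Prime ∧ zz N ≤ p)

lemma mem_AR {δ : ℝ} {N p : ℕ} : p ∈ AR δ N ↔ p ≤ hd (2 * δ) N ∧ p.Prime ∧ zz N ≤ p := by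
  classical
  simp [AR]

/-- the harmonic sum over the range is at most `4` -/
theorem sum_AR (δ : ℝ) (hδ : 0 < δ) : ∀ᶠ N : ℕ in atTop, ∑ p ∈ AR δ N, 1 / (p : ℝ) ≤ 4 := by
  have e1 : ∀ᶠ x : ℝ in atTop, 34 ≤ log x ∧ 2 ≤ x ^ (1 / 200 : ℝ) ∧ 1 ≤ x := by
    filter_upwards [tendsto_log_atTop.eventually_ge_atTop (34 : ℝ),
      (tendsto_rpow_atTop (show (0 : ℝ) < 1 / 200 by norm_num)).eventually_ge_atTop (2 : ℝ),
      eventually_ge_atTop (1 : ℝ)] with x h1 h2 h3
    exact ⟨h1, h2, h3⟩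
  filter_upwards [tendsto_natCast_atTop_atTop.eventually e1] with N hN
  obtain ⟨h1, h2, h3⟩ := hN
  have hN0 : (0 : ℝ) < N := by linarith
  set y : ℕ := hd (2 * δ) N with hy
  rcases Nat.eq_zero_or_pos y with hy0 | hy0
  · have : AR δ N = ∅ := by
      rw [Finset.eq_empty_iff_forall_notMem]
      intro p hp
      rw [mem_AR, ← hy, hy0] at hp
      have := hp.2.1.pos
      omega
    rw [this]
    norm_num
  -- `zz N ≥ N^(14/100)`
  have hzz : (N : ℝ) ^ (14 / 100 : ℝ) ≤ (zz N : ℝ) := by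
    have h4 : (N : ℝ) ^ (29 / 200 : ℝ) - 1 ≤ (zz N : ℝ) := by
      unfold zz
      exact (Nat.sub_one_lt_floor _).le
    have h5 : (N : ℝ) ^ (29 / 200 : ℝ) = (N : ℝ) ^ (14 / 100 : ℝ) * (N : ℝ) ^ (1 / 200 : ℝ) := by
      rw [← rpow_add hN0]; norm_num
    have h6 : 1 ≤ (N : ℝ) ^ (14 / 100 : ℝ) := one_le_rpow h3 (by norm_num)
    rw [h5] at h4
    nlinarith
  have hlogp : ∀ p ∈ AR δ N, 14 / 100 * log N ≤ log p := by
    intro p hp
    rw [mem_AR] at hp
    have h4 : (N : ℝ) ^ (14 / 100 : ℝ) ≤ (p : ℝ) := hzz.trans (by exact_mod_cast hp.2.2)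
    have h5 := log_le_log (by positivity) h4
    rwa [log_rpow hN0] at h5
  have hsum : ∑ p ∈ AR δ N, log p / (p : ℝ) ≤ log y + 2 := by
    refine le_trans ?_ (PSQ.sum_log_div_le y hy0)
    refine Finset.sum_le_sum_of_subset_of_nonneg ?_ ?_
    · intro p hp
      rw [mem_AR] at hp
      exact PSQ.mem_PP.2 ⟨hp.1, hp.2.1⟩
    · intro p hp _
      have := (PSQ.mem_PP.1 hp).2.one_le
      have h4 : (0 : ℝ) ≤ log p := log_nonneg (by exact_mod_cast this)
      positivity
  have hlogy : log y ≤ 1 / 2 * log N := by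
    have h4 : (y : ℝ) ≤ (N : ℝ) ^ (1 / 2 : ℝ) := by
      rw [hy]
      unfold hd
      exact (Nat.floor_le (rpow_nonneg hN0.le _)).trans
        (rpow_le_rpow_of_exponent_le h3 (by linarith))
    have h5 := log_le_log (by exact_mod_cast hy0) h4
    rwa [log_rpow hN0] at h5
  have h6 : 14 / 100 * log N * ∑ p ∈ AR δ N, 1 / (p : ℝ) ≤ ∑ p ∈ AR δ N, log p / (p : ℝ) := by
    rw [Finset.mul_sum]
    refine Finset.sum_le_sum fun p hp => ?_
    rw [mul_one_div]
    exact div_le_div_of_nonneg_right (hlogp p hp) (Nat.cast_nonneg _)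
  have h7 : 14 / 100 * log N * ∑ p ∈ AR δ N, 1 / (p : ℝ) ≤ 14 / 100 * log N * 4 := by
    linarith
  exact le_of_mul_le_mul_left h7 (by linarith)

open scoped Classical in
theorem dich : ∃ δ c c2 : ℝ, 0 < δ ∧ δ ≤ 1 / 100000 ∧ 0 < c ∧ 0 < c2 ∧ ∀ᶠ N : ℕ in atTop,
    ((QQ N (hd δ N) 1).card : ℝ) < c * ((hd δ N : ℝ) / log N) →
    c2 ≤ ∑ p ∈ Gd c δ N, 1 / (p : ℝ) := by
  obtain ⟨c0, hc0, H1⟩ := p2_lower
  obtain ⟨C, hC, H2⟩ := PT2.diag2
  obtain ⟨C1, hC1, H3⟩ := cls_asy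
  obtain ⟨δ, hδ, hδ1, hδ2⟩ : ∃ δ : ℝ, 0 < δ ∧ δ ≤ 1 / 100000 ∧ C * δ ≤ c0 / 4 := by
    refine ⟨min (1 / 100000) (c0 / (4 * C)), ?_, min_le_left _ _, ?_⟩
    · exact lt_min (by norm_num) (by positivity)
    · calc C * min (1 / 100000) (c0 / (4 * C)) ≤ C * (c0 / (4 * C)) :=
          mul_le_mul_of_nonneg_left (min_le_right _ _) hC.le
        _ = c0 / 4 := by field_simp
  refine ⟨δ, c0 / 32, δ * c0 / (2 * C1), hδ, hδ1, by positivity, by positivity, ?_⟩
  filter_upwards [H1 δ hδ hδ1, H2 δ hδ (by linarith), H3 δ hδ (by linarith),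
    hd_facts δ hδ (by linarith), sum_AR δ hδ,
    tendsto_natCast_atTop_atTop.eventually ((tendsto_rpow_atTop hδ).eventually_ge_atTop (2 : ℝ))]
    with N h1 h2 h3 hf hAR hN2 hpr
  obtain ⟨hN3, h2h, hD1, hDh, hhle, hhge, hm⟩ := hf
  have hN0 : (0 : ℝ) < N := by exact_mod_cast (by omega : 0 < N)
  have hlog : 0 < log N := log_pos (by exact_mod_cast (by omega : 1 < N))
  set h : ℕ := hd δ N with hh
  set D : ℕ := hd (2 * δ) N with hD
  set X : ℝ := (N : ℝ) ^ (1 / 2 - δ) with hX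
  have hX0 : 0 < X := rpow_pos_of_pos hN0 _
  have hz1 : ∀ p, p.Prime → 1 ≤ p := fun p hp => hp.one_lt.le
  -- the decomposition
  have h5 : (PSK.JH N h).filter (fun n => n.Prime ∨
        ∃ p q : ℕ, p.Prime ∧ q.Prime ∧ zz N ≤ p ∧ p < q ∧ n = p * q) ⊆
      QQ N h 1 ∪ ((PSK.JH N h).filter (fun n =>
        ∃ p q : ℕ, p.Prime ∧ q.Prime ∧ D < p ∧ p < q ∧ n = p * q) ∪
      (AR δ N).biUnion (fun p => QQ N h p)) := by
    intro n hn
    rw [Finset.mem_filter] at hn
    obtain ⟨hn1, hn2⟩ := hn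
    rw [Finset.mem_union, Finset.mem_union]
    rcases hn2 with hn2 | ⟨p, q, hp, hq, hzp, hpq, hn3⟩
    · left
      rw [mem_QQ]
      exact ⟨hn1, n, hn2, hn2.one_lt, (one_mul n).symm⟩
    · right
      rcases lt_or_ge D p with h4 | h4
      · left
        rw [Finset.mem_filter]
        exact ⟨hn1, p, q, hp, hq, h4, hpq, hn3⟩
      · right
        rw [Finset.mem_biUnion]
        refine ⟨p, ?_, ?_⟩
        · rw [mem_AR]
          exact ⟨h4, hp, hzp⟩
        · rw [mem_QQ]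
          exact ⟨hn1, q, hq, hpq, hn3⟩
  have h6 : (((PSK.JH N h).filter (fun n => n.Prime ∨
        ∃ p q : ℕ, p.Prime ∧ q.Prime ∧ zz N ≤ p ∧ p < q ∧ n = p * q)).card : ℝ) ≤
      ((QQ N h 1).card : ℝ) + ((((PSK.JH N h).filter (fun n =>
        ∃ p q : ℕ, p.Prime ∧ q.Prime ∧ D < p ∧ p < q ∧ n = p * q)).card : ℝ) +
      ∑ p ∈ AR δ N, ((QQ N h p).card : ℝ)) := by
    have h7 := (Finset.card_le_card h5).trans (Finset.card_union_le _ _)
    have h8 := h7.trans (Nat.add_le_add_left (Finset.card_union_le _ _) _)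
    have h9 := h8.trans (Nat.add_le_add_left (Nat.add_le_add_left Finset.card_biUnion_le _) _)
    exact_mod_cast h9
  -- the sum over the range
  have hgood : ∀ p ∈ AR δ N, ((QQ N h p).card : ℝ) ≤ C1 / δ * ((h : ℝ) / (p * log N)) := by
    intro p hp
    rw [mem_AR] at hp
    have h7 := h3 p (hz1 p hp.2.1) hp.1 1 0 le_rfl (Nat.coprime_one_right p) (by
      have h9 : (1 : ℝ) ≤ (N : ℝ) ^ δ / 2 := by linarith
      simpa using h9)
    have h8 : (QQ N h p).filter (fun n => n ≡ 0 [MOD 1]) = QQ N h p := by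
      apply Finset.filter_true_of_mem
      intro n _
      exact Nat.modEq_one
    rw [h8, Nat.totient_one, Nat.cast_one, div_one] at h7
    exact h7
  have hh0 : (0 : ℝ) ≤ (h : ℝ) / log N := by positivity
  have hterm : ∀ p ∈ AR δ N, ((QQ N h p).card : ℝ) ≤ c0 / 32 * ((h : ℝ) / log N) * (1 / (p : ℝ)) +
      (if p ∈ Gd (c0 / 32) δ N then C1 / δ * ((h : ℝ) / log N) * (1 / (p : ℝ)) else 0) := by
    intro p hp
    have hp' := mem_AR.1 hp
    have hp0 : (0 : ℝ) < p := by exact_mod_cast hp'.2.1.pos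
    have h7 : (h : ℝ) / (p * log N) = (h : ℝ) / log N * (1 / (p : ℝ)) := by
      field_simp
    have h8 : 0 ≤ c0 / 32 * ((h : ℝ) / log N) * (1 / (p : ℝ)) := by positivity
    split_ifs with hg
    · have h9 := hgood p hp
      rw [h7, ← mul_assoc] at h9
      linarith
    · have h9 : ((QQ N h p).card : ℝ) < c0 / 32 * ((h : ℝ) / (p * log N)) := by
        by_contra hcon
        push Not at hcon
        exact hg (mem_Gd.2 ⟨hp'.1, hp'.2.1, hp'.2.2, hcon⟩)
      rw [h7, ← mul_assoc] at h9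
      linarith
  have hsum := Finset.sum_le_sum hterm
  rw [Finset.sum_add_distrib, ← Finset.mul_sum, ← Finset.sum_filter, ← Finset.mul_sum] at hsum
  have hG : ∑ p ∈ (AR δ N).filter (fun p => p ∈ Gd (c0 / 32) δ N), 1 / (p : ℝ) ≤
      ∑ p ∈ Gd (c0 / 32) δ N, 1 / (p : ℝ) := by
    refine Finset.sum_le_sum_of_subset_of_nonneg ?_ (fun p _ _ => by positivity)
    intro p hp
    exact (Finset.mem_filter.1 hp).2
  set S : ℝ := ∑ p ∈ Gd (c0 / 32) δ N, 1 / (p : ℝ) with hS
  have hS0 : 0 ≤ S := Finset.sum_nonneg fun p _ => by positivity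
  have hXL : 0 < X / log N := div_pos hX0 hlog
  have hhX : (h : ℝ) / log N ≤ X / log N := div_le_div_of_nonneg_right hhle hlog.le
  have hs1 : c0 / 32 * ((h : ℝ) / log N) * ∑ p ∈ AR δ N, 1 / (p : ℝ) ≤
      c0 / 32 * (X / log N) * 4 := by
    apply mul_le_mul _ hAR (Finset.sum_nonneg fun p _ => by positivity) (by positivity)
    exact mul_le_mul_of_nonneg_left hhX (by positivity)
  have hs2 : C1 / δ * ((h : ℝ) / log N) *
      ∑ p ∈ (AR δ N).filter (fun p => p ∈ Gd (c0 / 32) δ N), 1 / (p : ℝ) ≤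
      C1 / δ * (X / log N) * S := by
    apply mul_le_mul _ hG (Finset.sum_nonneg fun p _ => by positivity) (by positivity)
    exact mul_le_mul_of_nonneg_left hhX (by positivity)
  have hs3 : c0 / 32 * ((h : ℝ) / log N) ≤ c0 / 32 * (X / log N) :=
    mul_le_mul_of_nonneg_left hhX (by positivity)
  have hs4 : C * δ * X / log N ≤ c0 / 4 * (X / log N) := by
    rw [mul_div_assoc]
    exact mul_le_mul_of_nonneg_right hδ2 hXL.le
  have hs5 : c0 * X / log N = c0 * (X / log N) := by ring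
  have hfin : (X / log N) * (c0 / 2) ≤ (X / log N) * (C1 / δ * S) := by
    rw [hs5] at h1
    have h10 : C1 / δ * (X / log N) * S = (X / log N) * (C1 / δ * S) := by ring
    have h11 : c0 / 32 * (X / log N) * 4 = (X / log N) * (c0 / 8) := by ring
    have h12 : c0 / 32 * (X / log N) = (X / log N) * (c0 / 32) := by ring
    have h13 : c0 / 4 * (X / log N) = (X / log N) * (c0 / 4) := by ring
    have h14 : c0 * (X / log N) = (X / log N) * c0 := by ring
    have h15 : (X / log N) * (c0 / 2) + (X / log N) * (c0 / 8) + (X / log N) * (c0 / 32) +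
        (X / log N) * (c0 / 4) ≤ (X / log N) * c0 := by
      have : (X / log N) * (c0 / 2) + (X / log N) * (c0 / 8) + (X / log N) * (c0 / 32) +
        (X / log N) * (c0 / 4) = (X / log N) * (29 / 32 * c0) := by ring
      rw [this]
      exact mul_le_mul_of_nonneg_left (by linarith) hXL.le
    linarith
  have h16 := le_of_mul_le_mul_left hfin hXL
  have h17 : c0 / 2 * δ ≤ C1 * S := by
    have h18 := mul_le_mul_of_nonneg_right h16 hδ.le
    have h19 : C1 / δ * S * δ = C1 * S := by field_simp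
    linarith
  rw [div_le_iff₀ (by positivity)]
  linarith

end Pool.Agent.Helper7.PTX
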