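import Pool.Agent.Helper7.PTX.Mass
import Pool.Agent.PTH.Rbp

set_option autoImplicit false

/-!
# PTX / Wgt: the weights are large enough for the hitting lemma

As `Pool/Agent/PTL/Fin.lean`: the harmonic mass of the good primes is `≥ c2` (`dich`), so a bounded number `C1` of
random primes in each dyadic block misses them with probability `≤ N^(-2)`.
-/

open Filter Finset Pool.Agent.PTH

namespace Pool.Agent.Helper7.PTX

/-- One dyadic block. -/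
private theorem term_ge {C : ℝ} (hC : 0 < C)
    (hcard : ∀ j : ℕ, ((RP j).card : ℝ) ≤ C * 2 ^ j / (j + 1))
    (C1 : ℕ) (AN : Finset ℕ) (j : ℕ) (w : ℝ)
    (hw : ∀ m ∈ AN ∩ RP j, w ≤ (j : ℝ) + 1) :
    C1 * w / C * ∑ m ∈ AN ∩ RP j, 1 / (m : ℝ) ≤
      ((C1 : ℕ) : ℝ) * ((AN ∩ RP j).card : ℝ) / ((RP j).card : ℝ) := by
  have hR0 : (0 : ℝ) < (RP j).card := by exact_mod_cast card_pos.2 (RP_nonempty j)
  rcases (AN ∩ RP j).eq_empty_or_nonempty with h | ⟨m0, hm0⟩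
  · rw [h]
    simp
  have hwj := hw m0 hm0
  have hj1 : (0 : ℝ) < (j : ℝ) + 1 := by positivity
  have h2j : (0 : ℝ) < 2 ^ j := by positivity
  have hsum : ∑ m ∈ AN ∩ RP j, 1 / (m : ℝ) ≤ ((AN ∩ RP j).card : ℝ) / 2 ^ j := by
    rw [div_eq_mul_one_div ((AN ∩ RP j).card : ℝ), ← nsmul_eq_mul]
    refine sum_le_card_nsmul _ _ _ fun m hm => ?_
    have h1 := (mem_inter.1 hm).2
    unfold RP at h1
    have h2 := (mem_Icc.1 (mem_filter.1 h1).1).1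
    refine one_div_le_one_div_of_le h2j ?_
    exact_mod_cast h2
  have hs0 : 0 ≤ ∑ m ∈ AN ∩ RP j, 1 / (m : ℝ) := sum_nonneg fun _ _ => by positivity
  have hn0 : (0 : ℝ) ≤ ((AN ∩ RP j).card : ℝ) := Nat.cast_nonneg _
  have hC1 : (0 : ℝ) ≤ (C1 : ℝ) := Nat.cast_nonneg _
  calc C1 * w / C * ∑ m ∈ AN ∩ RP j, 1 / (m : ℝ)
      ≤ C1 * ((j : ℝ) + 1) / C * (((AN ∩ RP j).card : ℝ) / 2 ^ j) := by
        refine mul_le_mul ?_ hsum hs0 (by positivity)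
        exact div_le_div_of_nonneg_right (mul_le_mul_of_nonneg_left hwj hC1) hC.le
    _ = (C1 : ℝ) * ((AN ∩ RP j).card : ℝ) / (C * 2 ^ j / (j + 1)) := by
        field_simp
    _ ≤ (C1 : ℝ) * ((AN ∩ RP j).card : ℝ) / ((RP j).card : ℝ) := by
        refine div_le_div_of_nonneg_left (by positivity) hR0 (hcard j)

theorem weights_ge : ∃ (δ c : ℝ) (C1 N0 : ℕ), 0 < δ ∧ δ ≤ 1 / 100000 ∧ 0 < c ∧ 2 ≤ N0 ∧
    ∀ N : ℕ, N0 ≤ N → ((QQ N (hd δ N) 1).card : ℝ) < c * ((hd δ N : ℝ) / Real.log N) →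
    2 * Real.log N ≤ ∑ j ∈ range (Nat.log 2 (hd (2 * δ) N) + 1),
      ((C1 : ℕ) : ℝ) * ((Gd c δ N ∩ RP j).card : ℝ) / ((RP j).card : ℝ) := by
  obtain ⟨C, hC, hcard⟩ := card_RP_le
  obtain ⟨δ, c0, c, hδ, hδ1, hc0, hc, hmass⟩ := dich
  obtain ⟨N1, hN1⟩ := eventually_atTop.1 hmass
  refine ⟨δ, c0, ⌈2 * C / (c * (29 / 400))⌉₊, max 2 N1, hδ, hδ1, hc0,
    le_max_left _ _, fun N hN hno => ?_⟩
  set C1 : ℕ := ⌈2 * C / (c * (29 / 400))⌉₊ with hC1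
  have hC1' : 2 * C / (c * (29 / 400)) ≤ (C1 : ℝ) := Nat.le_ceil _
  have hm2 := hN1 N ((le_max_right _ _).trans hN) hno
  have hN2 : 2 ≤ N := (le_max_left _ _).trans hN
  have hN2' : (2 : ℝ) ≤ N := by exact_mod_cast hN2
  have hlog : 0 < Real.log N := Real.log_pos (by linarith)
  -- membership
  have hmem : ∀ p ∈ Gd c0 δ N, ∃ j ∈ range (Nat.log 2 (hd (2 * δ) N) + 1), p ∈ RP j := by
    intro p hp
    rw [mem_Gd] at hp
    obtain ⟨h1, h2, -, -⟩ := hp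
    have hp0 : p ≠ 0 := h2.ne_zero
    refine ⟨Nat.log 2 p, mem_range.2 ?_, ?_⟩
    · have := Nat.log_mono_right (b := 2) h1
      omega
    · unfold RP
      exact mem_filter.2 ⟨mem_Icc.2 ⟨Nat.pow_log_le_self 2 hp0,
        (Nat.lt_pow_succ_log_self (by norm_num) p).le⟩, h2⟩
  have hsum : ∑ m ∈ Gd c0 δ N, 1 / (m : ℝ) ≤
      ∑ j ∈ range (Nat.log 2 (hd (2 * δ) N) + 1), ∑ m ∈ Gd c0 δ N ∩ RP j, 1 / (m : ℝ) := by
    have h1 : ∀ j, ∑ m ∈ Gd c0 δ N ∩ RP j, 1 / (m : ℝ)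
        = ∑ m ∈ Gd c0 δ N, if m ∈ RP j then 1 / (m : ℝ) else 0 := by
      intro j
      rw [← sum_filter, filter_mem_eq_inter]
    rw [sum_congr rfl fun j _ => h1 j, sum_comm]
    refine sum_le_sum fun m hm => ?_
    obtain ⟨j, hj, hmj⟩ := hmem m hm
    have h2 : (1 : ℝ) / m = if m ∈ RP j then 1 / (m : ℝ) else 0 := by rw [if_pos hmj]
    refine h2.le.trans ?_
    refine single_le_sum (f := fun j => if m ∈ RP j then 1 / (m : ℝ) else 0)
      (fun i _ => ?_) hj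
    split_ifs
    · positivity
    · exact le_rfl
  have hterm : ∀ j ∈ range (Nat.log 2 (hd (2 * δ) N) + 1),
      C1 * (29 / 400 * Real.log N) / C * ∑ m ∈ Gd c0 δ N ∩ RP j, 1 / (m : ℝ) ≤
      ((C1 : ℕ) : ℝ) * ((Gd c0 δ N ∩ RP j).card : ℝ) / ((RP j).card : ℝ) := by
    intro j _
    refine term_ge hC hcard C1 _ j _ ?_
    intro m hm
    rw [mem_inter, mem_Gd] at hm
    obtain ⟨⟨h1, h2, h3, -⟩, h4⟩ := hm
    unfold RP at h4
    have h6 := (mem_Icc.1 (mem_filter.1 h4).1).2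
    have h8 : (N : ℝ) ^ (29 / 200 : ℝ) < (m : ℝ) + 1 := by
      have h9 : (N : ℝ) ^ (29 / 200 : ℝ) < (zz N : ℝ) + 1 := by
        unfold zz
        exact Nat.lt_floor_add_one _
      have h10 : (zz N : ℝ) ≤ m := by exact_mod_cast h3
      linarith
    have h9 : (m : ℝ) + 1 ≤ 2 ^ (j + 2) := by
      have h7 : m + 1 ≤ 2 ^ (j + 2) := by
        have : 1 ≤ 2 ^ (j + 1) := Nat.one_le_two_pow
        rw [show j + 2 = (j + 1) + 1 by omega, pow_succ 2 (j + 1)]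
        omega
      exact_mod_cast h7
    have h10 : Real.log ((N : ℝ) ^ (29 / 200 : ℝ)) ≤ Real.log (2 ^ (j + 2)) :=
      Real.log_le_log (by positivity) (by linarith)
    rw [Real.log_rpow (by linarith), Real.log_pow] at h10
    have h11 := Real.log_two_lt_d9
    have h12 : (0 : ℝ) ≤ ((j + 2 : ℕ) : ℝ) := Nat.cast_nonneg _
    have h13 : ((j + 2 : ℕ) : ℝ) * Real.log 2 ≤ ((j + 2 : ℕ) : ℝ) * (7 / 10) :=
      mul_le_mul_of_nonneg_left (by linarith) h12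
    push_cast at *
    have hj0 : (0 : ℝ) ≤ j := Nat.cast_nonneg _
    linarith
  have hw0 : 0 ≤ 29 / 400 * Real.log N := by positivity
  calc 2 * Real.log N = (2 * C / (c * (29 / 400))) * (29 / 400 * Real.log N) / C * c := by
        field_simp
    _ ≤ C1 * (29 / 400 * Real.log N) / C * c := by
        refine mul_le_mul_of_nonneg_right ?_ hc.le
        exact div_le_div_of_nonneg_right (mul_le_mul_of_nonneg_right hC1' hw0) hC.le
    _ ≤ C1 * (29 / 400 * Real.log N) / C *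
          ∑ j ∈ range (Nat.log 2 (hd (2 * δ) N) + 1), ∑ m ∈ Gd c0 δ N ∩ RP j, 1 / (m : ℝ) :=
        mul_le_mul_of_nonneg_left (hm2.trans hsum) (by positivity)
    _ = ∑ j ∈ range (Nat.log 2 (hd (2 * δ) N) + 1), C1 * (29 / 400 * Real.log N) / C *
          ∑ m ∈ Gd c0 δ N ∩ RP j, 1 / (m : ℝ) := by rw [mul_sum]
    _ ≤ _ := sum_le_sum hterm

/-- a bounded number of elements in each dyadic interval -/
theorem countE2 (C1 : ℕ) (M : ℕ → Finset ℕ) (hM : ∀ j, M j ⊆ RP j ∧ (M j).card ≤ C1)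
    (y : ℝ) (hy : 1 ≤ y) :
    {p : ℕ | (∃ j, p ∈ M j) ∧ y ≤ p ∧ (p : ℝ) ≤ 2 * y}.ncard ≤ 3 * C1 := by
  classical
  set j : ℕ := Nat.log 2 ⌊y⌋₊ with hj
  have hfl : 1 ≤ ⌊y⌋₊ := Nat.one_le_floor_iff _ |>.2 hy
  have h1 : (2 : ℝ) ^ j ≤ y := by
    have h2 : 2 ^ j ≤ ⌊y⌋₊ := Nat.pow_log_le_self 2 (by omega)
    have h3 : ((2 ^ j : ℕ) : ℝ) ≤ (⌊y⌋₊ : ℝ) := by exact_mod_cast h2
    push_cast at h3
    exact h3.trans (Nat.floor_le (by linarith))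
  have h2 : y < (2 : ℝ) ^ (j + 1) := by
    have h3 : ⌊y⌋₊ < 2 ^ (j + 1) := Nat.lt_pow_succ_log_self (by norm_num) _
    have h4 : ((⌊y⌋₊ + 1 : ℕ) : ℝ) ≤ ((2 ^ (j + 1) : ℕ) : ℝ) := by exact_mod_cast h3
    push_cast at h4
    exact lt_of_lt_of_le (Nat.lt_floor_add_one y) h4
  have hsub : {p : ℕ | (∃ j, p ∈ M j) ∧ y ≤ p ∧ (p : ℝ) ≤ 2 * y} ⊆
      ((Icc (j - 1) (j + 1)).biUnion M : Finset ℕ) := by
    rintro p ⟨⟨i, hi⟩, hyp, hpy⟩
    rw [Finset.mem_coe, mem_biUnion]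
    refine ⟨i, ?_, hi⟩
    have h3 := (hM i).1 hi
    unfold RP at h3
    obtain ⟨h4, h5⟩ := mem_Icc.1 (mem_filter.1 h3).1
    have h6 : (2 : ℝ) ^ i ≤ p := by exact_mod_cast h4
    have h7 : (p : ℝ) ≤ 2 ^ (i + 1) := by exact_mod_cast h5
    have h8 : j ≤ i + 1 := by
      have h9 : (2 : ℝ) ^ j ≤ 2 ^ (i + 1) := by linarith
      exact (pow_le_pow_iff_right₀ (by norm_num)).1 h9
    have h9 : i < j + 2 := by
      have h10 : (2 : ℝ) ^ i < 2 ^ (j + 2) := by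
        have : (2 : ℝ) ^ (j + 2) = 2 * 2 ^ (j + 1) := by ring
        linarith
      exact (pow_lt_pow_iff_right₀ (by norm_num)).1 h10
    rw [mem_Icc]
    omega
  have h3 := Set.ncard_le_ncard hsub (Finset.finite_toSet _)
  rw [Set.ncard_coe_finset] at h3
  refine h3.trans (card_biUnion_le.trans ?_)
  refine (sum_le_card_nsmul _ _ C1 fun j _ => (hM j).2).trans ?_
  rw [Nat.card_Icc, smul_eq_mul]
  exact Nat.mul_le_mul_right _ (by omega)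

end Pool.Agent.Helper7.PTX
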